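import Mathlib

/-!
# The rectangle cover norm

`om Z` is the infimum of `∑ √(|a| |b|)` over the covers of `Z` by rectangles `a × b`.
-/

namespace Pool.Agent.Lib_MP_22d2c8_shd

variable {α : Type} [Fintype α] [DecidableEq α]

/-- cost of a rectangle -/
noncomputable def rc (r : Finset α × Finset α) : ℝ := Real.sqrt (r.1.card * r.2.card)

/-- cost of a list of rectangles -/
noncomputable def lc (L : List (Finset α × Finset α)) : ℝ := (L.map rc).sum

/-- the rectangles in `L` cover `Z` -/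
def Cov (L : List (Finset α × Finset α)) (Z : Set (α × α)) : Prop :=
  ∀ p ∈ Z, ∃ r ∈ L, p.1 ∈ r.1 ∧ p.2 ∈ r.2

/-- rectangle cover norm -/
noncomputable def om (Z : Set (α × α)) : ℝ :=
  ⨅ L : {L : List (Finset α × Finset α) // Cov L Z}, lc L.1

omit [Fintype α] [DecidableEq α] in
theorem rc_nonneg (r : Finset α × Finset α) : 0 ≤ rc r := Real.sqrt_nonneg _

omit [Fintype α] [DecidableEq α] in
theorem lc_nonneg (L : List (Finset α × Finset α)) : 0 ≤ lc L := by
  unfold lc
  apply List.sum_nonneg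
  intro x hx
  rw [List.mem_map] at hx
  obtain ⟨r, _, rfl⟩ := hx
  exact rc_nonneg r

omit [Fintype α] [DecidableEq α] in
theorem lc_append (L M : List (Finset α × Finset α)) : lc (L ++ M) = lc L + lc M := by
  unfold lc
  rw [List.map_append, List.sum_append]

omit [DecidableEq α] in
theorem cov_ne (Z : Set (α × α)) : Nonempty {L : List (Finset α × Finset α) // Cov L Z} :=
  ⟨⟨[(Finset.univ, Finset.univ)], fun _ _ => ⟨_, List.mem_singleton.2 rfl, Finset.mem_univ _,
    Finset.mem_univ _⟩⟩⟩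

omit [Fintype α] [DecidableEq α] in
theorem bdd (Z : Set (α × α)) : BddBelow (Set.range fun L : {L : List (Finset α × Finset α) //
    Cov L Z} => lc L.1) :=
  ⟨0, by rintro _ ⟨L, rfl⟩; exact lc_nonneg _⟩

omit [Fintype α] [DecidableEq α] in
theorem om_le {Z : Set (α × α)} {L : List (Finset α × Finset α)} (h : Cov L Z) : om Z ≤ lc L :=
  ciInf_le (bdd Z) (⟨L, h⟩ : {L : List (Finset α × Finset α) // Cov L Z})

omit [DecidableEq α] in
theorem le_om {Z : Set (α × α)} {t : ℝ} (h : ∀ L, Cov L Z → t ≤ lc L) : t ≤ om Z := by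
  have := cov_ne Z
  exact le_ciInf fun L => h L.1 L.2

omit [DecidableEq α] in
theorem om_nonneg (Z : Set (α × α)) : 0 ≤ om Z := le_om fun L _ => lc_nonneg L

omit [DecidableEq α] in
theorem om_mono {Z Z' : Set (α × α)} (h : Z ⊆ Z') : om Z ≤ om Z' :=
  le_om fun _ hL => om_le fun p hp => hL p (h hp)

omit [DecidableEq α] in
theorem om_union (Z Z' : Set (α × α)) : om (Z ∪ Z') ≤ om Z + om Z' := by
  have := cov_ne Z
  have := cov_ne Z'
  refine le_ciInf_add_ciInf fun L M => ?_
  rw [← lc_append]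
  refine om_le ?_
  rintro p (hp | hp)
  · obtain ⟨r, hr, h⟩ := L.2 p hp
    exact ⟨r, List.mem_append_left _ hr, h⟩
  · obtain ⟨r, hr, h⟩ := M.2 p hp
    exact ⟨r, List.mem_append_right _ hr, h⟩

omit [Fintype α] [DecidableEq α] in
theorem om_rect {Z : Set (α × α)} {A B : Finset α} (h : ∀ p ∈ Z, p.1 ∈ A ∧ p.2 ∈ B) :
    om Z ≤ Real.sqrt (A.card * B.card) := by
  have h1 := om_le (Z := Z) (L := [(A, B)]) fun p hp => ⟨_, List.mem_singleton.2 rfl, h p hp⟩
  unfold lc rc at h1
  simpa using h1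

omit [Fintype α] [DecidableEq α] in
theorem om_empty_le : om (∅ : Set (α × α)) ≤ 0 := by
  have h := om_rect (Z := (∅ : Set (α × α))) (A := ∅) (B := ∅) (fun p hp => absurd hp (by simp))
  simpa using h

omit [DecidableEq α] in
theorem om_sum {ι : Type} (S : Finset ι) (Z : ι → Set (α × α)) (Y : Set (α × α))
    (h : ∀ p ∈ Y, ∃ i ∈ S, p ∈ Z i) : om Y ≤ ∑ i ∈ S, om (Z i) := by
  classical
  induction S using Finset.induction_on generalizing Y with
  | empty =>
    rw [Finset.sum_empty]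
    refine (om_mono ?_).trans om_empty_le
    intro p hp
    obtain ⟨i, hi, _⟩ := h p hp
    simp at hi
  | insert a S ha ih =>
    rw [Finset.sum_insert ha]
    have h1 : Y ⊆ Z a ∪ {p | ∃ i ∈ S, p ∈ Z i} := by
      intro p hp
      obtain ⟨i, hi, hpi⟩ := h p hp
      rcases Finset.mem_insert.1 hi with rfl | hi
      · exact Or.inl hpi
      · exact Or.inr ⟨i, hi, hpi⟩
    refine (om_mono h1).trans ((om_union _ _).trans ?_)
    have h2 := ih {p | ∃ i ∈ S, p ∈ Z i} (fun p hp => hp)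
    linarith

/-- a matching meets `Z` in at most `om Z` pairs -/
theorem card_le_om {β : Type} (Z : Set (α × α)) (ψ φ : β → α) (hψ : Function.Injective ψ)
    (hφ : Function.Injective φ) (S : Finset β) (hS : ∀ x ∈ S, (ψ x, φ x) ∈ Z) :
    (S.card : ℝ) ≤ om Z := by
  classical
  refine le_om fun L hL => ?_
  have key : ∀ (L : List (Finset α × Finset α)) (S : Finset β),
      (∀ x ∈ S, ∃ r ∈ L, ψ x ∈ r.1 ∧ φ x ∈ r.2) → (S.card : ℝ) ≤ lc L := by
    intro L
    induction L with
    | nil =>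
      intro S h
      have : S = ∅ := by
        rw [Finset.eq_empty_iff_forall_notMem]
        intro x hx
        obtain ⟨r, hr, _⟩ := h x hx
        simp at hr
      rw [this]
      simp [lc]
    | cons r L ih =>
      intro S h
      set S1 := S.filter fun x => ψ x ∈ r.1 ∧ φ x ∈ r.2 with hS1
      set S2 := S.filter fun x => ¬ (ψ x ∈ r.1 ∧ φ x ∈ r.2) with hS2
      have hc : S.card = S1.card + S2.card := (Finset.card_filter_add_card_filter_not _).symm
      have h2 : (S2.card : ℝ) ≤ lc L := by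
        refine ih S2 fun x hx => ?_
        rw [hS2, Finset.mem_filter] at hx
        obtain ⟨r', hr', hx'⟩ := h x hx.1
        rcases List.mem_cons.1 hr' with rfl | hr'
        · exact absurd hx' hx.2
        · exact ⟨r', hr', hx'⟩
      have h1 : (S1.card : ℝ) ≤ rc r := by
        have ha : S1.card ≤ r.1.card := by
          rw [← Finset.card_image_of_injective S1 hψ]
          refine Finset.card_le_card fun y hy => ?_
          obtain ⟨x, hx, rfl⟩ := Finset.mem_image.1 hy
          exact (Finset.mem_filter.1 hx).2.1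
        have hb : S1.card ≤ r.2.card := by
          rw [← Finset.card_image_of_injective S1 hφ]
          refine Finset.card_le_card fun y hy => ?_
          obtain ⟨x, hx, rfl⟩ := Finset.mem_image.1 hy
          exact (Finset.mem_filter.1 hx).2.2
        unfold rc
        apply Real.le_sqrt_of_sq_le
        have ha' : (S1.card : ℝ) ≤ r.1.card := by exact_mod_cast ha
        have hb' : (S1.card : ℝ) ≤ r.2.card := by exact_mod_cast hb
        nlinarith [Nat.cast_nonneg (α := ℝ) S1.card]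
      have h3 : lc (r :: L) = rc r + lc L := by
        unfold lc
        rw [List.map_cons, List.sum_cons]
      rw [h3, hc]
      push_cast
      linarith
  exact key L S fun x hx => hL (ψ x, φ x) (hS x hx)

/-- Cauchy-Schwarz and Minkowski for one step -/
theorem mink {ι : Type} (S : Finset ι) (a b : ι → ℝ) (A B : ℝ) (hA : 0 ≤ A) (hB : 0 ≤ B)
    (ha : ∑ i ∈ S, a i ^ 2 ≤ A ^ 2) (hb : ∑ i ∈ S, b i ^ 2 ≤ B ^ 2) :
    ∑ i ∈ S, (a i + b i) ^ 2 ≤ (A + B) ^ 2 := by
  have h1 : (∑ i ∈ S, a i * b i) ^ 2 ≤ (A * B) ^ 2 := by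
    refine (Finset.sum_mul_sq_le_sq_mul_sq S a b).trans ?_
    rw [mul_pow]
    exact mul_le_mul ha hb (Finset.sum_nonneg fun i _ => sq_nonneg _) (sq_nonneg _)
  have h2 : ∑ i ∈ S, a i * b i ≤ A * B := abs_le_of_sq_le_sq' h1 (mul_nonneg hA hB) |>.2
  have h3 : ∑ i ∈ S, (a i + b i) ^ 2 =
      ∑ i ∈ S, a i ^ 2 + 2 * ∑ i ∈ S, a i * b i + ∑ i ∈ S, b i ^ 2 := by
    rw [Finset.mul_sum, ← Finset.sum_add_distrib, ← Finset.sum_add_distrib]
    refine Finset.sum_congr rfl fun i _ => ?_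
    ring
  rw [h3]
  nlinarith

/-- the two rectangles of part `k` of a rectangle -/
def part {ι : Type} [DecidableEq ι] (c : α → Option ι) (k : ι) (r : Finset α × Finset α) :
    List (Finset α × Finset α) :=
  [(r.1.filter fun x => c x = some k, r.2.filter fun y => c y = none),
    (r.1.filter fun x => c x = none, r.2.filter fun y => c y = some k)]

theorem part_real {ι : Type} [Fintype ι] (a b : ι → ℝ) (a0 b0 : ℝ) (ha : ∀ k, 0 ≤ a k)
    (hb : ∀ k, 0 ≤ b k) (ha0 : 0 ≤ a0) (hb0 : 0 ≤ b0) :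
    ∑ k, (Real.sqrt (a k * b0) + Real.sqrt (a0 * b k)) ^ 2 ≤
      (a0 + ∑ k, a k) * (b0 + ∑ k, b k) := by
  have hSA0 : 0 ≤ ∑ k, a k := Finset.sum_nonneg fun k _ => ha k
  have hSB0 : 0 ≤ ∑ k, b k := Finset.sum_nonneg fun k _ => hb k
  have p1 : 0 ≤ (∑ k, a k) * b0 := mul_nonneg hSA0 hb0
  have p2 : 0 ≤ a0 * ∑ k, b k := mul_nonneg ha0 hSB0
  have p3 : 0 ≤ (∑ k, a k) * ∑ k, b k := mul_nonneg hSA0 hSB0
  have p4 : 0 ≤ a0 * b0 := mul_nonneg ha0 hb0
  have h1 : ∑ k, Real.sqrt (a k * b0) ^ 2 ≤ Real.sqrt ((∑ k, a k) * b0) ^ 2 := by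
    rw [Real.sq_sqrt p1]
    have : ∀ k, Real.sqrt (a k * b0) ^ 2 = a k * b0 := fun k =>
      Real.sq_sqrt (mul_nonneg (ha k) hb0)
    simp_rw [this]
    rw [← Finset.sum_mul]
  have h2 : ∑ k, Real.sqrt (a0 * b k) ^ 2 ≤ Real.sqrt (a0 * ∑ k, b k) ^ 2 := by
    rw [Real.sq_sqrt p2]
    have : ∀ k, Real.sqrt (a0 * b k) ^ 2 = a0 * b k := fun k =>
      Real.sq_sqrt (mul_nonneg ha0 (hb k))
    simp_rw [this]
    rw [← Finset.mul_sum]
  have h3 := mink Finset.univ (fun k => Real.sqrt (a k * b0)) (fun k => Real.sqrt (a0 * b k))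
    (Real.sqrt ((∑ k, a k) * b0)) (Real.sqrt (a0 * ∑ k, b k)) (Real.sqrt_nonneg _)
    (Real.sqrt_nonneg _) h1 h2
  refine h3.trans ?_
  have h5 := Real.sq_sqrt p1
  have h6 := Real.sq_sqrt p2
  have h4 : Real.sqrt ((∑ k, a k) * b0) * Real.sqrt (a0 * ∑ k, b k) ≤
      ((∑ k, a k) * (∑ k, b k) + a0 * b0) / 2 := by
    rw [← Real.sqrt_mul p1]
    apply Real.sqrt_le_iff.2
    refine ⟨by linarith, ?_⟩
    nlinarith [sq_nonneg ((∑ k, a k) * (∑ k, b k) - a0 * b0)]
  nlinarith

omit [Fintype α] [DecidableEq α] in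
theorem card_parts {ι : Type} [Fintype ι] [DecidableEq ι] (c : α → Option ι) (s : Finset α) :
    (s.card : ℝ) = (s.filter fun x => c x = none).card +
      ∑ k, ((s.filter fun x => c x = some k).card : ℝ) := by
  have h1 : s.card = ∑ o : Option ι, (s.filter fun x => c x = o).card :=
    Finset.card_eq_sum_card_fiberwise fun x _ => Finset.mem_univ _
  rw [h1, Fintype.sum_option]
  push_cast
  rfl

omit [Fintype α] [DecidableEq α] in
theorem lc_part {ι : Type} [Fintype ι] [DecidableEq ι] (c : α → Option ι)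
    (r : Finset α × Finset α) : ∑ k, lc (part c k r) ^ 2 ≤ rc r ^ 2 := by
  have hlc : ∀ k, lc (part c k r) =
      Real.sqrt (((r.1.filter fun x => c x = some k).card : ℝ) *
        ((r.2.filter fun x => c x = none).card : ℝ)) +
      Real.sqrt (((r.1.filter fun x => c x = none).card : ℝ) *
        ((r.2.filter fun x => c x = some k).card : ℝ)) := by
    intro k
    unfold lc part rc
    rw [List.map_cons, List.map_cons, List.map_nil, List.sum_cons, List.sum_cons, List.sum_nil,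
      add_zero]
  have hrc : rc r ^ 2 = (r.1.card : ℝ) * r.2.card := by
    unfold rc
    rw [Real.sq_sqrt (by positivity)]
  rw [hrc, card_parts c r.1, card_parts c r.2]
  simp_rw [hlc]
  exact part_real _ _ _ _ (fun k => Nat.cast_nonneg _) (fun k => Nat.cast_nonneg _)
    (Nat.cast_nonneg _) (Nat.cast_nonneg _)

omit [DecidableEq α] in
/-- splitting of the cover norm at a gate -/
theorem om_split {ι : Type} [Fintype ι] [DecidableEq ι] (c : α → Option ι) (Z : Set (α × α)) :
    ∑ k, om {p | p ∈ Z ∧ ((c p.1 = some k ∧ c p.2 = none) ∨ (c p.1 = none ∧ c p.2 = some k))} ^ 2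
      ≤ om Z ^ 2 := by
  have hkey : ∀ L : List (Finset α × Finset α), ∑ k, lc (L.flatMap (part c k)) ^ 2 ≤ lc L ^ 2 := by
    intro L
    induction L with
    | nil => simp [lc]
    | cons r L ih =>
      have h1 : ∀ k, lc ((r :: L).flatMap (part c k)) = lc (part c k r) +
          lc (L.flatMap (part c k)) := by
        intro k
        rw [List.flatMap_cons, lc_append]
      have h2 : lc (r :: L) = rc r + lc L := by
        unfold lc
        rw [List.map_cons, List.sum_cons]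
      simp_rw [h1]
      rw [h2]
      exact mink _ _ _ _ _ (rc_nonneg r) (lc_nonneg L) (lc_part c r) ih
  have hS : ∀ L, Cov L Z → ∑ k, om {p | p ∈ Z ∧ ((c p.1 = some k ∧ c p.2 = none) ∨
      (c p.1 = none ∧ c p.2 = some k))} ^ 2 ≤ lc L ^ 2 := by
    intro L hL
    refine le_trans (Finset.sum_le_sum fun k _ => ?_) (hkey L)
    refine pow_le_pow_left₀ (om_nonneg _) (om_le ?_) 2
    rintro p ⟨hp, hc⟩
    obtain ⟨r, hr, h1, h2⟩ := hL p hp
    rcases hc with ⟨hc1, hc2⟩ | ⟨hc1, hc2⟩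
    · refine ⟨(r.1.filter fun x => c x = some k, r.2.filter fun y => c y = none), ?_, ?_, ?_⟩
      · rw [List.mem_flatMap]
        exact ⟨r, hr, by unfold part; simp⟩
      · exact Finset.mem_filter.2 ⟨h1, hc1⟩
      · exact Finset.mem_filter.2 ⟨h2, hc2⟩
    · refine ⟨(r.1.filter fun x => c x = none, r.2.filter fun y => c y = some k), ?_, ?_, ?_⟩
      · rw [List.mem_flatMap]
        exact ⟨r, hr, by unfold part; simp⟩
      · exact Finset.mem_filter.2 ⟨h1, hc1⟩
      · exact Finset.mem_filter.2 ⟨h2, hc2⟩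
  have hsum0 : 0 ≤ ∑ k, om {p | p ∈ Z ∧ ((c p.1 = some k ∧ c p.2 = none) ∨
      (c p.1 = none ∧ c p.2 = some k))} ^ 2 := Finset.sum_nonneg fun k _ => sq_nonneg _
  have h1 : Real.sqrt (∑ k, om {p | p ∈ Z ∧ ((c p.1 = some k ∧ c p.2 = none) ∨
      (c p.1 = none ∧ c p.2 = some k))} ^ 2) ≤ om Z := by
    refine le_om fun L hL => ?_
    exact Real.sqrt_le_iff.2 ⟨lc_nonneg L, hS L hL⟩
  calc _ = Real.sqrt (∑ k, om {p | p ∈ Z ∧ ((c p.1 = some k ∧ c p.2 = none) ∨
      (c p.1 = none ∧ c p.2 = some k))} ^ 2) ^ 2 := (Real.sq_sqrt hsum0).symm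
    _ ≤ om Z ^ 2 := pow_le_pow_left₀ (Real.sqrt_nonneg _) h1 2

end Pool.Agent.Lib_MP_22d2c8_shd
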