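import Mathlib

/-!
# Circuits with few shared gates on a path: definitions

Circuits with and/or gates of any fan-in and signed wires. A gate is shared if it feeds at least
two wires.
-/

namespace Pool.Agent.Lib_MP_22d2c8_shd

/-- A circuit with `n` inputs, `s` gates and `w` wires. Gate `u` is a conjunction if `conj u` is
true and a disjunction otherwise. Wire `e` leads from `src e` (an input or a gate) into the gate
`tgt e` and negates if `neg e` is true. Ranks increase along wires. -/
structure Circuit (n s w : ℕ) where
  conj : Fin s → Bool
  tgt : Fin w → Fin s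
  src : Fin w → Fin n ⊕ Fin s
  neg : Fin w → Bool
  out : Fin s
  rank : Fin s → ℕ
  acyclic : ∀ e u, src e = Sum.inr u → rank u < rank (tgt e)

variable {n s w : ℕ}

/-- The bit that wire `e` delivers, for the input `x` and gate values `v`. -/
def Circuit.bit (C : Circuit n s w) (x : Fin n → Bool) (v : Fin s → Bool) (e : Fin w) : Bool :=
  xor (C.neg e) (Sum.elim x v (C.src e))

/-- `v` is the vector of the gate values for the input `x`. -/
def Circuit.IsRun (C : Circuit n s w) (x : Fin n → Bool) (v : Fin s → Bool) : Prop :=
  ∀ u, (v u = true ↔ if C.conj u = true then ∀ e, C.tgt e = u → C.bit x v e = true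
    else ∃ e, C.tgt e = u ∧ C.bit x v e = true)

/-- The circuit computes `f`. -/
def Circuit.Computes (C : Circuit n s w) (f : (Fin n → Bool) → Bool) : Prop :=
  ∀ x, ∃ v, C.IsRun x v ∧ v C.out = f x

/-- Gate `u` is shared: it feeds at least two wires. -/
def Circuit.Shared (C : Circuit n s w) (u : Fin s) : Prop :=
  ∃ e e', e ≠ e' ∧ C.src e = Sum.inr u ∧ C.src e' = Sum.inr u

/-- The value of gate `u` depends on at most `q` inputs. -/
def Circuit.Local (C : Circuit n s w) (q : ℕ) (u : Fin s) : Prop :=
  ∃ S : Finset (Fin n), S.card ≤ q ∧ ∀ x y v v', C.IsRun x v → C.IsRun y v' →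
    (∀ i ∈ S, x i = y i) → v u = v' u

/-- When the wires that leave the gates in `K` and the gates depending on at most `q` inputs are
deleted then every path has at most `d` wires from shared gates: there are levels in `0, …, d`
which do not fall along the remaining wires and rise along the remaining wires that leave a shared
gate. -/
def Circuit.SharingLE (C : Circuit n s w) (K : Finset (Fin s)) (q d : ℕ) : Prop :=
  ∃ lev : Fin s → ℕ, (∀ u, lev u ≤ d) ∧ ∀ e u, C.src e = Sum.inr u → u ∉ K → ¬ C.Local q u →
    lev u ≤ lev (C.tgt e) ∧ (C.Shared u → lev u < lev (C.tgt e))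

/-- `x` with bit `i` flipped -/
def flip (x : Fin n → Bool) (i : Fin n) : Fin n → Bool := Function.update x i (!(x i))

/-- The number of pairs in `A × B` that differ in exactly one bit. -/
def edges (A B : Finset (Fin n → Bool)) : ℕ := ∑ i, (A.filter fun x => flip x i ∈ B).card

/-- The parity of the bits. -/
def parity (x : Fin n → Bool) : Bool := decide (Odd (Finset.univ.filter fun i => x i = true).card)

end Pool.Agent.Lib_MP_22d2c8_shd
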