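import Pool.Agent.Lib_MP_22d2c8_shd.Defs

/-!
# The flow inequality

`t e` and `T v` are numbers on the wires and the vertices. At a gate the squares of the incoming
wires sum to at most the square of the gate; a vertex has at most the sum of its outgoing wires,
and at most `N`.
-/

namespace Pool.Agent.Lib_MP_22d2c8_shd

variable {n s w : ℕ}

theorem chain_bound (R x : ℕ → ℝ) (hR : ∀ i, 0 ≤ R i) (hx : ∀ i, 0 ≤ x i) (m : ℕ)
    (h : ∀ i, i < m → R i ^ 2 ≤ x i * R (i + 1)) :
    R 0 ^ 2 ^ m ≤ (∏ i ∈ Finset.range m, x i ^ 2 ^ (m - 1 - i)) * R m := by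
  induction m with
  | zero => simp
  | succ m ih =>
    have h1 := ih fun i hi => h i (by omega)
    have h2 := h m (by omega)
    have hP : 0 ≤ ∏ i ∈ Finset.range m, x i ^ 2 ^ (m - 1 - i) :=
      Finset.prod_nonneg fun i _ => pow_nonneg (hx i) _
    calc R 0 ^ 2 ^ (m + 1) = (R 0 ^ 2 ^ m) ^ 2 := by rw [pow_succ 2 m, pow_mul]
      _ ≤ ((∏ i ∈ Finset.range m, x i ^ 2 ^ (m - 1 - i)) * R m) ^ 2 :=
          pow_le_pow_left₀ (pow_nonneg (hR 0) _) h1 2
      _ = (∏ i ∈ Finset.range m, x i ^ 2 ^ (m - 1 - i)) ^ 2 * R m ^ 2 := mul_pow _ _ _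
      _ ≤ (∏ i ∈ Finset.range m, x i ^ 2 ^ (m - 1 - i)) ^ 2 * (x m * R (m + 1)) :=
          mul_le_mul_of_nonneg_left h2 (sq_nonneg _)
      _ = (∏ i ∈ Finset.range (m + 1), x i ^ 2 ^ (m + 1 - 1 - i)) * R (m + 1) := by
          rw [Finset.prod_range_succ, ← Finset.prod_pow]
          have h3 : ∏ i ∈ Finset.range m, (x i ^ 2 ^ (m - 1 - i)) ^ 2 =
              ∏ i ∈ Finset.range m, x i ^ 2 ^ (m + 1 - 1 - i) := by
            refine Finset.prod_congr rfl fun i hi => ?_
            rw [Finset.mem_range] at hi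
            rw [← pow_mul, ← pow_succ]
            congr 2
            omega
          rw [h3]
          have h4 : m + 1 - 1 - m = 0 := by omega
          rw [h4, pow_zero, pow_one]
          ring

/-- Cauchy-Schwarz with `k` additional entries `N` -/
theorem cs_add {ι : Type} (X : Finset ι) (t : ι → ℝ) (N : ℝ) (k : ℕ)
    (ht : ∀ e, 0 ≤ t e) :
    (∑ e ∈ X, t e + N * k) ^ 2 ≤ (X.card + k) * (∑ e ∈ X, t e ^ 2 + N ^ 2 * k) := by
  have h1 : (∑ e ∈ X, t e) ^ 2 ≤ X.card * ∑ e ∈ X, t e ^ 2 := sq_sum_le_card_mul_sum_sq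
  set S := ∑ e ∈ X, t e with hS
  set Q := ∑ e ∈ X, t e ^ 2 with hQ
  have hS0 : 0 ≤ S := Finset.sum_nonneg fun e _ => ht e
  have hQ0 : 0 ≤ Q := Finset.sum_nonneg fun e _ => sq_nonneg _
  have hc : (0 : ℝ) ≤ X.card := Nat.cast_nonneg _
  have hk : (0 : ℝ) ≤ k := Nat.cast_nonneg _
  have h2 : 2 * S * N ≤ Q + X.card * N ^ 2 := by
    rcases hc.eq_or_lt with h0 | h0
    · rw [← h0] at h1
      have : S = 0 := by nlinarith
      rw [this, ← h0]
      linarith
    · have h3 : 0 ≤ (S - X.card * N) ^ 2 := sq_nonneg _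
      have h4 : X.card * (2 * S * N) ≤ X.card * (Q + X.card * N ^ 2) := by nlinarith
      exact le_of_mul_le_mul_left h4 h0
  have h5 := mul_le_mul_of_nonneg_left h2 hk
  nlinarith

/-- level of the source of a wire: `0` for inputs, `lev u + 1` for gates outside `K` -/
def sl (C : Circuit n s w) (K : Finset (Fin s)) (d : ℕ) (lev : Fin s → ℕ) (e : Fin w) : ℕ :=
  Sum.elim (fun _ => 0) (fun u => if u ∈ K then d + 2 else lev u + 1) (C.src e)

theorem sl_inl {C : Circuit n s w} {K : Finset (Fin s)} {d : ℕ} {lev : Fin s → ℕ} {e : Fin w}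
    {i : Fin n} (h : C.src e = Sum.inl i) : sl C K d lev e = 0 := by
  unfold sl
  rw [h]
  rfl

theorem sl_inr {C : Circuit n s w} {K : Finset (Fin s)} {d : ℕ} {lev : Fin s → ℕ} {e : Fin w}
    {u : Fin s} (h : C.src e = Sum.inr u) (hu : u ∉ K) : sl C K d lev e = lev u + 1 := by
  unfold sl
  rw [h]
  simp [hu]

theorem sl_K {C : Circuit n s w} {K : Finset (Fin s)} {d : ℕ} {lev : Fin s → ℕ} {e : Fin w}
    {u : Fin s} (h : C.src e = Sum.inr u) (hu : u ∈ K) : sl C K d lev e = d + 2 := by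
  unfold sl
  rw [h]
  simp [hu]

/-- sum over sources -/
theorem sum_sources (C : Circuit n s w) (K : Finset (Fin s)) (d : ℕ) (lev : Fin s → ℕ) (i : ℕ)
    (P : Fin w → Prop) [DecidablePred P] (h : Fin w → ℝ) (hh : ∀ e, 0 ≤ h e) :
    ∑ u ∈ Finset.univ.filter (fun u => lev u = i ∧ u ∉ K),
      ∑ e ∈ Finset.univ.filter (fun e => C.src e = Sum.inr u ∧ P e), h e ≤
    ∑ e ∈ Finset.univ.filter (fun e => sl C K d lev e = i + 1 ∧ P e), h e := by
  rw [← Finset.sum_biUnion]
  · refine Finset.sum_le_sum_of_subset_of_nonneg ?_ fun e _ _ => hh e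
    intro e he
    rw [Finset.mem_biUnion] at he
    obtain ⟨u, hu, he⟩ := he
    rw [Finset.mem_filter] at hu he ⊢
    refine ⟨Finset.mem_univ _, ?_, he.2.2⟩
    rw [sl_inr he.2.1 hu.2.2, hu.2.1]
  · intro u _ v _ huv
    rw [Function.onFun, Finset.disjoint_left]
    intro e he he'
    rw [Finset.mem_filter] at he he'
    exact huv (Sum.inr.inj (he.2.1.symm.trans he'.2.1))

section energy

variable (C : Circuit n s w) (K : Finset (Fin s)) (d : ℕ) (lev : Fin s → ℕ)
  (hlev : ∀ e u, C.src e = Sum.inr u → u ∉ K →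
    lev u ≤ lev (C.tgt e) ∧ (C.Shared u → lev u < lev (C.tgt e)))
  (t : Fin w → ℝ) (T : Fin n ⊕ Fin s → ℝ) (N : ℝ) (hN : 0 ≤ N)
  (ht : ∀ e, 0 ≤ t e) (htN : ∀ e, t e ≤ N) (hT0 : ∀ v, 0 ≤ T v) (hTN : ∀ v, T v ≤ N)
  (F1 : ∀ u, ∑ e ∈ Finset.univ.filter (fun e => C.tgt e = u), t e ^ 2 ≤ T (Sum.inr u) ^ 2)
  (F2 : ∀ v, (∀ u ∈ K, v ≠ Sum.inr u) →
    T v ≤ ∑ e ∈ Finset.univ.filter (fun e => C.src e = v), t e)

include hlev hN ht hT0 hTN F2 in
theorem gate_energy (u : Fin s) (hu : u ∉ K) :
    T (Sum.inr u) ^ 2 ≤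
      ∑ e ∈ Finset.univ.filter (fun e => C.src e = Sum.inr u ∧ lev (C.tgt e) = lev u), t e ^ 2 +
      N * ∑ e ∈ Finset.univ.filter (fun e => C.src e = Sum.inr u ∧ lev u < lev (C.tgt e)), t e := by
  have h2 := F2 (Sum.inr u) (fun v hv h => hu (Sum.inr.inj h ▸ hv))
  have h0 : 0 ≤ ∑ e ∈ Finset.univ.filter
      (fun e => C.src e = Sum.inr u ∧ lev (C.tgt e) = lev u), t e ^ 2 :=
    Finset.sum_nonneg fun e _ => sq_nonneg _
  have h0' : 0 ≤ ∑ e ∈ Finset.univ.filter
      (fun e => C.src e = Sum.inr u ∧ lev u < lev (C.tgt e)), t e :=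
    Finset.sum_nonneg fun e _ => ht e
  by_cases hex : ∃ e0, C.src e0 = Sum.inr u ∧ lev (C.tgt e0) = lev u
  · obtain ⟨e0, he0, hl0⟩ := hex
    have hns : ¬ C.Shared u := by
      intro hs
      have := (hlev e0 u he0 hu).2 hs
      omega
    have huniq : Finset.univ.filter (fun e => C.src e = Sum.inr u) = {e0} := by
      ext e
      rw [Finset.mem_filter, Finset.mem_singleton]
      constructor
      · rintro ⟨_, he⟩
        by_contra hne
        exact hns ⟨e, e0, hne, he, he0⟩
      · rintro rfl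
        exact ⟨Finset.mem_univ _, he0⟩
    rw [huniq, Finset.sum_singleton] at h2
    have h3 : t e0 ^ 2 ≤ ∑ e ∈ Finset.univ.filter
        (fun e => C.src e = Sum.inr u ∧ lev (C.tgt e) = lev u), t e ^ 2 :=
      Finset.single_le_sum (f := fun e => t e ^ 2) (fun e _ => sq_nonneg _)
        (Finset.mem_filter.2 ⟨Finset.mem_univ _, he0, hl0⟩)
    have h4 : T (Sum.inr u) ^ 2 ≤ t e0 ^ 2 := pow_le_pow_left₀ (hT0 _) h2 2
    have h5 := mul_nonneg hN h0'
    linarith
  · push Not at hex
    have heq : Finset.univ.filter (fun e => C.src e = Sum.inr u) =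
        Finset.univ.filter (fun e => C.src e = Sum.inr u ∧ lev u < lev (C.tgt e)) := by
      ext e
      rw [Finset.mem_filter, Finset.mem_filter]
      constructor
      · rintro ⟨_, he⟩
        refine ⟨Finset.mem_univ _, he, ?_⟩
        have h3 := (hlev e u he hu).1
        have h4 := hex e he
        omega
      · rintro ⟨_, he, _⟩
        exact ⟨Finset.mem_univ _, he⟩
    rw [heq] at h2
    have h3 : T (Sum.inr u) ^ 2 ≤ N * T (Sum.inr u) := by
      rw [sq]
      exact mul_le_mul_of_nonneg_right (hTN _) (hT0 _)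
    have h4 := mul_le_mul_of_nonneg_left h2 hN
    linarith

include hlev hN ht hT0 hTN F1 F2 in
theorem level_energy (i : ℕ) :
    ∑ e ∈ Finset.univ.filter (fun e => lev (C.tgt e) = i ∧ sl C K d lev e ≤ i), t e ^ 2 ≤
      N * ∑ e ∈ Finset.univ.filter
        (fun e => i < lev (C.tgt e) ∧ sl C K d lev e = i + 1), t e +
      N ^ 2 * (K.filter fun u => lev u = i).card := by
  -- sum of F1 over the level
  have s1 : ∑ e ∈ Finset.univ.filter (fun e => lev (C.tgt e) = i), t e ^ 2 ≤
      ∑ u ∈ Finset.univ.filter (fun u => lev u = i), T (Sum.inr u) ^ 2 := by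
    have h1 : ∑ e ∈ Finset.univ.filter (fun e => lev (C.tgt e) = i), t e ^ 2 =
        ∑ u ∈ Finset.univ.filter (fun u => lev u = i),
          ∑ e ∈ Finset.univ.filter (fun e => C.tgt e = u), t e ^ 2 := by
      rw [← Finset.sum_biUnion]
      · refine Finset.sum_congr ?_ fun _ _ => rfl
        ext e
        simp
      · intro u _ v _ huv
        rw [Function.onFun, Finset.disjoint_left]
        intro e he he'
        rw [Finset.mem_filter] at he he'
        exact huv (he.2.symm.trans he'.2)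
    rw [h1]
    exact Finset.sum_le_sum fun u _ => F1 u
  -- split the gates of the level
  have s2 : ∑ u ∈ Finset.univ.filter (fun u => lev u = i), T (Sum.inr u) ^ 2 =
      ∑ u ∈ Finset.univ.filter (fun u => lev u = i ∧ u ∉ K), T (Sum.inr u) ^ 2 +
      ∑ u ∈ K.filter (fun u => lev u = i), T (Sum.inr u) ^ 2 := by
    rw [← Finset.sum_filter_add_sum_filter_not (Finset.univ.filter fun u => lev u = i)
      (fun u => u ∉ K), Finset.filter_filter, Finset.filter_filter]
    congr 1
    refine Finset.sum_congr ?_ fun _ _ => rfl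
    ext u
    simp only [Finset.mem_filter, Finset.mem_univ, true_and, not_not]
    tauto
  have s3 : ∑ u ∈ K.filter (fun u => lev u = i), T (Sum.inr u) ^ 2 ≤
      N ^ 2 * (K.filter fun u => lev u = i).card := by
    have h1 : ∑ u ∈ K.filter (fun u => lev u = i), T (Sum.inr u) ^ 2 ≤
        ∑ u ∈ K.filter (fun u => lev u = i), N ^ 2 :=
      Finset.sum_le_sum fun u _ => pow_le_pow_left₀ (hT0 _) (hTN _) 2
    rw [Finset.sum_const, nsmul_eq_mul] at h1
    linarith
  have s4 : ∑ u ∈ Finset.univ.filter (fun u => lev u = i ∧ u ∉ K), T (Sum.inr u) ^ 2 ≤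
      ∑ e ∈ Finset.univ.filter (fun e => sl C K d lev e = i + 1 ∧ lev (C.tgt e) = i), t e ^ 2 +
      N * ∑ e ∈ Finset.univ.filter
        (fun e => sl C K d lev e = i + 1 ∧ i < lev (C.tgt e)), t e := by
    have h1 : ∑ u ∈ Finset.univ.filter (fun u => lev u = i ∧ u ∉ K), T (Sum.inr u) ^ 2 ≤
        ∑ u ∈ Finset.univ.filter (fun u => lev u = i ∧ u ∉ K),
          (∑ e ∈ Finset.univ.filter (fun e => C.src e = Sum.inr u ∧ lev (C.tgt e) = i), t e ^ 2 +
          N * ∑ e ∈ Finset.univ.filter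
            (fun e => C.src e = Sum.inr u ∧ i < lev (C.tgt e)), t e) := by
      refine Finset.sum_le_sum fun u hu => ?_
      rw [Finset.mem_filter] at hu
      have h2 := gate_energy C K lev hlev t T N hN ht hT0 hTN F2 u hu.2.2
      rw [hu.2.1] at h2
      exact h2
    rw [Finset.sum_add_distrib, ← Finset.mul_sum] at h1
    have h3 := sum_sources C K d lev i (fun e => lev (C.tgt e) = i) (fun e => t e ^ 2)
      (fun e => sq_nonneg _)
    have h4 := mul_le_mul_of_nonneg_left
      (sum_sources C K d lev i (fun e => i < lev (C.tgt e)) t ht) hN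
    linarith
  -- compare
  have s5 : ∑ e ∈ Finset.univ.filter (fun e => lev (C.tgt e) = i ∧ sl C K d lev e ≤ i), t e ^ 2 +
      ∑ e ∈ Finset.univ.filter (fun e => sl C K d lev e = i + 1 ∧ lev (C.tgt e) = i), t e ^ 2 ≤
      ∑ e ∈ Finset.univ.filter (fun e => lev (C.tgt e) = i), t e ^ 2 := by
    rw [← Finset.sum_union]
    · refine Finset.sum_le_sum_of_subset_of_nonneg ?_ fun e _ _ => sq_nonneg _
      intro e he
      simp only [Finset.mem_union, Finset.mem_filter, Finset.mem_univ, true_and] at he ⊢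
      tauto
    · rw [Finset.disjoint_left]
      intro e he he'
      rw [Finset.mem_filter] at he he'
      omega
  have s6 : ∑ e ∈ Finset.univ.filter
        (fun e => sl C K d lev e = i + 1 ∧ i < lev (C.tgt e)), t e =
      ∑ e ∈ Finset.univ.filter
        (fun e => i < lev (C.tgt e) ∧ sl C K d lev e = i + 1), t e := by
    refine Finset.sum_congr ?_ fun _ _ => rfl
    ext e
    simp only [Finset.mem_filter, Finset.mem_univ, true_and]
    tauto
  rw [s6] at s4
  linarith

/-- wires that cross level `i` -/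
def Xc (i : ℕ) : Finset (Fin w) :=
  Finset.univ.filter fun e => i ≤ lev (C.tgt e) ∧ sl C K d lev e ≤ i

/-- number of gates of `K` below level `i` -/
def kb (i : ℕ) : ℕ := (K.filter fun u => lev u < i).card

include hlev hN ht htN hT0 hTN F1 F2 in
theorem cut_energy (i : ℕ) :
    ∑ e ∈ Xc C K d lev i, t e ^ 2 + N ^ 2 * kb K lev i ≤
      N * (∑ e ∈ Xc C K d lev (i + 1), t e + N * kb K lev (i + 1)) := by
  have h1 := level_energy C K d lev hlev t T N hN ht hT0 hTN F1 F2 i
  have h2 : ∑ e ∈ Xc C K d lev i, t e ^ 2 =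
      ∑ e ∈ Finset.univ.filter (fun e => lev (C.tgt e) = i ∧ sl C K d lev e ≤ i), t e ^ 2 +
      ∑ e ∈ Finset.univ.filter (fun e => i < lev (C.tgt e) ∧ sl C K d lev e ≤ i), t e ^ 2 := by
    rw [← Finset.sum_union]
    · refine Finset.sum_congr ?_ fun _ _ => rfl
      ext e
      simp only [Xc, Finset.mem_union, Finset.mem_filter, Finset.mem_univ, true_and]
      omega
    · rw [Finset.disjoint_left]
      intro e he he'
      rw [Finset.mem_filter] at he he'
      omega
  have h3 : ∑ e ∈ Xc C K d lev (i + 1), t e =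
      ∑ e ∈ Finset.univ.filter (fun e => i < lev (C.tgt e) ∧ sl C K d lev e = i + 1), t e +
      ∑ e ∈ Finset.univ.filter (fun e => i < lev (C.tgt e) ∧ sl C K d lev e ≤ i), t e := by
    rw [← Finset.sum_union]
    · refine Finset.sum_congr ?_ fun _ _ => rfl
      ext e
      simp only [Xc, Finset.mem_union, Finset.mem_filter, Finset.mem_univ, true_and]
      omega
    · rw [Finset.disjoint_left]
      intro e he he'
      rw [Finset.mem_filter] at he he'
      omega
  have h4 : kb K lev (i + 1) = kb K lev i + (K.filter fun u => lev u = i).card := by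
    unfold kb
    rw [← Finset.card_union_of_disjoint]
    · congr 1
      ext u
      simp only [Finset.mem_union, Finset.mem_filter]
      constructor
      · rintro ⟨h, h'⟩
        rcases Nat.lt_succ_iff_lt_or_eq.1 h' with h'' | h''
        · exact Or.inl ⟨h, h''⟩
        · exact Or.inr ⟨h, h''⟩
      · rintro (⟨h, h'⟩ | ⟨h, h'⟩)
        · exact ⟨h, by omega⟩
        · exact ⟨h, by omega⟩
    · rw [Finset.disjoint_left]
      intro e he he'
      rw [Finset.mem_filter] at he he'
      omega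
  have h5 : ∑ e ∈ Finset.univ.filter (fun e => i < lev (C.tgt e) ∧ sl C K d lev e ≤ i), t e ^ 2 ≤
      N * ∑ e ∈ Finset.univ.filter (fun e => i < lev (C.tgt e) ∧ sl C K d lev e ≤ i), t e := by
    rw [Finset.mul_sum]
    refine Finset.sum_le_sum fun e _ => ?_
    rw [sq]
    exact mul_le_mul_of_nonneg_right (htN e) (ht e)
  rw [h2, h3, h4]
  push_cast
  linarith

/-- number of wires that cross level `i` plus the number of gates of `K` below level `i` -/
def cutSize (i : ℕ) : ℕ := (Xc C K d lev i).card + kb K lev i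

include hlev hN ht htN hT0 hTN F1 F2 in
theorem flow_refined (hd : ∀ u, lev u ≤ d) (E : ℝ) (hE0 : 0 ≤ E)
    (F4 : E ≤ ∑ i, T (Sum.inl i)) :
    E ^ 2 ^ (d + 1) ≤ (∏ i ∈ Finset.range (d + 1), ((cutSize C K d lev i : ℝ) * N) ^ 2 ^ (d - i)) *
      (N * K.card) := by
  set R : ℕ → ℝ := fun i => ∑ e ∈ Xc C K d lev i, t e + N * kb K lev i with hR
  have hR0 : ∀ i, 0 ≤ R i := fun i => add_nonneg (Finset.sum_nonneg fun e _ => ht e)
    (mul_nonneg hN (Nat.cast_nonneg _))
  have hx0 : ∀ i, 0 ≤ (cutSize C K d lev i : ℝ) * N := fun i => mul_nonneg (Nat.cast_nonneg _) hN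
  have hstep : ∀ i, i < d + 1 → R i ^ 2 ≤ (cutSize C K d lev i : ℝ) * N * R (i + 1) := by
    intro i _
    have h1 := cs_add (Xc C K d lev i) t N (kb K lev i) ht
    have h2 := cut_energy C K d lev hlev t T N hN ht htN hT0 hTN F1 F2 i
    have h3 : (cutSize C K d lev i : ℝ) = (Xc C K d lev i).card + kb K lev i := by
      unfold cutSize
      push_cast
      rfl
    rw [h3]
    have h4 : (0 : ℝ) ≤ (Xc C K d lev i).card + kb K lev i := by positivity
    have h5 := mul_le_mul_of_nonneg_left h2 h4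
    calc R i ^ 2 ≤ _ := h1
      _ ≤ _ := h5
      _ = _ := by ring
  have h1 := chain_bound R (fun i => (cutSize C K d lev i : ℝ) * N) hR0 hx0 (d + 1) hstep
  have hE : E ≤ R 0 := by
    refine F4.trans ?_
    have h2 : ∑ i, T (Sum.inl i) ≤ ∑ i : Fin n,
        ∑ e ∈ Finset.univ.filter (fun e => C.src e = Sum.inl i), t e := by
      refine Finset.sum_le_sum fun i _ => F2 _ ?_
      intro u _ h
      cases h
    refine h2.trans ?_
    have h3 : ∑ i : Fin n, ∑ e ∈ Finset.univ.filter (fun e => C.src e = Sum.inl i), t e ≤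
        ∑ e ∈ Xc C K d lev 0, t e := by
      rw [← Finset.sum_biUnion]
      · refine Finset.sum_le_sum_of_subset_of_nonneg ?_ fun e _ _ => ht e
        intro e he
        rw [Finset.mem_biUnion] at he
        obtain ⟨i, _, he⟩ := he
        rw [Finset.mem_filter] at he
        rw [Xc, Finset.mem_filter]
        exact ⟨Finset.mem_univ _, Nat.zero_le _, (sl_inl he.2).le⟩
      · intro u _ v _ huv
        rw [Function.onFun, Finset.disjoint_left]
        intro e he he'
        rw [Finset.mem_filter] at he he'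
        exact huv (Sum.inl.inj (he.2.symm.trans he'.2))
    refine h3.trans ?_
    have h4 : 0 ≤ N * (kb K lev 0 : ℝ) := mul_nonneg hN (Nat.cast_nonneg _)
    change _ ≤ ∑ e ∈ Xc C K d lev 0, t e + N * kb K lev 0
    linarith
  have hRd : R (d + 1) = N * K.card := by
    have h2 : Xc C K d lev (d + 1) = ∅ := by
      rw [Finset.eq_empty_iff_forall_notMem]
      intro e he
      rw [Xc, Finset.mem_filter] at he
      have := hd (C.tgt e)
      omega
    have h3 : kb K lev (d + 1) = K.card := by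
      unfold kb
      congr 1
      rw [Finset.filter_true_of_mem]
      intro u _
      have := hd u
      omega
    change ∑ e ∈ Xc C K d lev (d + 1), t e + N * kb K lev (d + 1) = _
    rw [h2, h3, Finset.sum_empty, zero_add]
  rw [hRd] at h1
  refine (pow_le_pow_left₀ hE0 hE _).trans (h1.trans (le_of_eq ?_))
  simp only [Nat.add_sub_cancel]

end energy

end Pool.Agent.Lib_MP_22d2c8_shd
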