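import Pool.Agent.Lib_MP_22d2c8_shd.Route

/-!
# Gates that depend on few inputs become inputs
-/

namespace Pool.Agent.Lib_MP_22d2c8_shd

variable {n s w : ℕ}

/-- The gates of `G` are replaced by new inputs wherever they are read. -/
def cutC (C : Circuit n s w) (G : Finset (Fin s)) : Circuit (n + s) s w where
  conj := C.conj
  tgt := C.tgt
  src := fun e => Sum.elim (fun i => Sum.inl (Fin.castAdd s i))
    (fun u => if u ∈ G then Sum.inl (Fin.natAdd n u) else Sum.inr u) (C.src e)
  neg := C.neg
  out := C.out
  rank := C.rank
  acyclic := by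
    intro e u h
    rcases hs : C.src e with i | v
    · rw [hs] at h
      simp at h
    · rw [hs] at h
      simp only [Sum.elim_inr] at h
      split_ifs at h with hv
      have : v = u := Sum.inr.inj h
      subst this
      exact C.acyclic e v hs

theorem cut_src_inr {C : Circuit n s w} {G : Finset (Fin s)} {e : Fin w} {u : Fin s} :
    (cutC C G).src e = Sum.inr u ↔ C.src e = Sum.inr u ∧ u ∉ G := by
  unfold cutC
  rcases hs : C.src e with i | v
  · simp [hs]
  · simp only [hs, Sum.elim_inr]
    by_cases hv : v ∈ G
    · rw [if_pos hv]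
      constructor
      · intro h
        cases h
      · rintro ⟨h, h'⟩
        rw [Sum.inr.inj h] at hv
        exact absurd hv h'
    · rw [if_neg hv]
      constructor
      · intro h
        have h' : v = u := Sum.inr.inj h
        rw [← h']
        exact ⟨rfl, hv⟩
      · rintro ⟨h, _⟩
        have h' : v = u := Sum.inr.inj h
        rw [h']

theorem cut_src_natAdd {C : Circuit n s w} {G : Finset (Fin s)} {e : Fin w} {u : Fin s}
    (h : (cutC C G).src e = Sum.inl (Fin.natAdd n u)) : u ∈ G := by
  have h' : Sum.elim (fun i => Sum.inl (Fin.castAdd s i))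
    (fun u => if u ∈ G then Sum.inl (Fin.natAdd n u) else Sum.inr u) (C.src e) =
    (Sum.inl (Fin.natAdd n u) : Fin (n + s) ⊕ Fin s) := h
  rcases hs : C.src e with i' | u'
  · rw [hs] at h'
    simp only [Sum.elim_inl, Sum.inl.injEq] at h'
    have h3 := congrArg Fin.val h'
    simp only [Fin.val_natAdd, Fin.val_castAdd] at h3
    omega
  · rw [hs] at h'
    simp only [Sum.elim_inr] at h'
    split_ifs at h' with hu'
    rw [Sum.inl.injEq] at h'
    have h3 : u' = u := (Fin.natAdd_injective s n) h'
    rw [← h3]
    exact hu'

theorem cut_bit (C : Circuit n s w) (G : Finset (Fin s)) (x : Fin n → Bool) (v : Fin s → Bool)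
    (e : Fin w) : (cutC C G).bit (Fin.append x v) v e = C.bit x v e := by
  unfold Circuit.bit cutC
  rcases hs : C.src e with i | u
  · simp [hs]
  · simp only [hs, Sum.elim_inr]
    split_ifs
    · simp
    · simp

theorem cut_run {C : Circuit n s w} (G : Finset (Fin s)) {x : Fin n → Bool} {v : Fin s → Bool}
    (h : C.IsRun x v) : (cutC C G).IsRun (Fin.append x v) v := by
  intro u
  have h1 := h u
  simp only [cut_bit]
  exact h1

/-- the assignment of the inputs and the new inputs -/
def extG (val : (Fin n → Bool) → Fin s → Bool) (x : Fin n → Bool) : Fin (n + s) → Bool :=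
  Fin.append x (val x)

theorem extG_injective (val : (Fin n → Bool) → Fin s → Bool) : Function.Injective (extG val) := by
  intro x y h
  funext i
  have h1 := congrFun h (Fin.castAdd s i)
  simpa [extG] using h1

/-- the gate values of the cut circuit -/
def valc (val : (Fin n → Bool) → Fin s → Bool) (z : Fin (n + s) → Bool) : Fin s → Bool :=
  val fun i => z (Fin.castAdd s i)

theorem valc_extG (val : (Fin n → Bool) → Fin s → Bool) (x : Fin n → Bool) :
    valc val (extG val x) = val x := by
  unfold valc extG
  congr 1
  funext i
  simp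

theorem flow_edges (C : Circuit n s w) (val : (Fin n → Bool) → Fin s → Bool)
    (hval : ∀ x, C.IsRun x (val x)) (q : ℕ) (hq : 1 ≤ q) (G : Finset (Fin s))
    (hG : ∀ u ∈ G, C.Local q u) (A B : Finset (Fin n → Bool))
    (hA : ∀ x ∈ A, val x C.out = false) (hB : ∀ y ∈ B, val y C.out = true) :
    (edges A B : ℝ) ≤ q * ∑ j, om (ZV (cutC C G) (valc val) (A.image (extG val))
      (B.image (extG val)) (Sum.inl j)) := by
  classical
  set Z : Fin (n + s) → Set ((Fin (n + s) → Bool) × (Fin (n + s) → Bool)) := fun j =>
    ZV (cutC C G) (valc val) (A.image (extG val)) (B.image (extG val)) (Sum.inl j) with hZ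
  have hG' : ∀ u : Fin s, ∃ S : Finset (Fin n), S.card ≤ q ∧ (u ∈ G → ∀ x y v v', C.IsRun x v →
      C.IsRun y v' → (∀ i ∈ S, x i = y i) → v u = v' u) := by
    intro u
    by_cases hu : u ∈ G
    · obtain ⟨S, h1, h2⟩ := hG u hu
      exact ⟨S, h1, fun _ => h2⟩
    · exact ⟨∅, by simp, fun h => absurd h hu⟩
  choose S hS1 hS2 using hG'
  have hcov : ∀ i : Fin n, ∀ x ∈ A.filter fun x => flip x i ∈ B,
      ((extG val x, extG val (flip x i)) ∈ Z (Fin.castAdd s i)) ∨
      ∃ u, i ∈ S u ∧ (extG val x, extG val (flip x i)) ∈ Z (Fin.natAdd n u) := by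
    intro i x hx
    rw [Finset.mem_filter] at hx
    have hne : valc val (extG val x) (cutC C G).out ≠
        valc val (extG val (flip x i)) (cutC C G).out := by
      rw [valc_extG, valc_extG]
      change val x C.out ≠ val (flip x i) C.out
      rw [hA x hx.1, hB _ hx.2]
      decide
    have hr1 : (cutC C G).IsRun (extG val x) (valc val (extG val x)) := by
      rw [valc_extG]
      exact cut_run G (hval x)
    have hr2 : (cutC C G).IsRun (extG val (flip x i)) (valc val (extG val (flip x i))) := by
      rw [valc_extG]
      exact cut_run G (hval (flip x i))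
    have hm : extG val x ∈ A.image (extG val) ∧ extG val (flip x i) ∈ B.image (extG val) :=
      ⟨Finset.mem_image_of_mem _ hx.1, Finset.mem_image_of_mem _ hx.2⟩
    obtain ⟨j, hj, hd⟩ := exists_input hr1 hr2 hne
    revert hj hd
    refine Fin.addCases (fun i' => ?_) (fun u => ?_) j
    · intro hj hd
      left
      have : i' = i := by
        by_contra hji
        apply hd
        unfold extG flip
        simp [Function.update_of_ne hji]
      subst this
      exact ⟨hm, hj⟩
    · intro hj hd
      right
      refine ⟨u, ?_, hm, hj⟩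
      have hu : u ∈ G := by
        generalize hv : (Sum.inl (Fin.natAdd n u) : Fin (n + s) ⊕ Fin s) = v at hj
        cases hj with
        | out => cases hv
        | step e h1 h2 => exact cut_src_natAdd hv.symm
      by_contra hi
      apply hd
      have h3 := hS2 u hu x (flip x i) (val x) (val (flip x i)) (hval x) (hval _) (by
        intro k hk
        unfold flip
        rw [Function.update_of_ne]
        rintro rfl
        exact hi hk)
      unfold extG
      simpa using h3
  have hone : ∀ i : Fin n, ((A.filter fun x => flip x i ∈ B).card : ℝ) ≤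
      om (Z (Fin.castAdd s i)) + ∑ u, if i ∈ S u then om (Z (Fin.natAdd n u)) else 0 := by
    intro i
    have h1 : (A.filter fun x => flip x i ∈ B) ⊆
        ((A.filter fun x => flip x i ∈ B).filter fun x =>
          (extG val x, extG val (flip x i)) ∈ Z (Fin.castAdd s i)) ∪
        Finset.univ.biUnion fun u => if i ∈ S u then
          ((A.filter fun x => flip x i ∈ B).filter fun x =>
            (extG val x, extG val (flip x i)) ∈ Z (Fin.natAdd n u)) else ∅ := by
      intro x hx
      rw [Finset.mem_union]
      rcases hcov i x hx with h | ⟨u, hu, h⟩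
      · exact Or.inl (Finset.mem_filter.2 ⟨hx, h⟩)
      · right
        rw [Finset.mem_biUnion]
        refine ⟨u, Finset.mem_univ _, ?_⟩
        rw [if_pos hu]
        exact Finset.mem_filter.2 ⟨hx, h⟩
    have h2 := (Finset.card_le_card h1).trans (Finset.card_union_le _ _)
    have h3 := h2.trans (Nat.add_le_add_left Finset.card_biUnion_le _)
    have h4 : ((A.filter fun x => flip x i ∈ B).card : ℝ) ≤
        (((A.filter fun x => flip x i ∈ B).filter fun x =>
          (extG val x, extG val (flip x i)) ∈ Z (Fin.castAdd s i)).card : ℝ) +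
        ∑ u, ((if i ∈ S u then ((A.filter fun x => flip x i ∈ B).filter fun x =>
            (extG val x, extG val (flip x i)) ∈ Z (Fin.natAdd n u)) else ∅).card : ℝ) := by
      exact_mod_cast h3
    refine h4.trans (add_le_add ?_ (Finset.sum_le_sum fun u _ => ?_))
    · exact card_le_om _ (extG val) (fun x => extG val (flip x i)) (extG_injective val)
        ((extG_injective val).comp (flip_injective i)) _ fun x hx => (Finset.mem_filter.1 hx).2
    · split_ifs
      · exact card_le_om _ (extG val) (fun x => extG val (flip x i)) (extG_injective val)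
          ((extG_injective val).comp (flip_injective i)) _ fun x hx => (Finset.mem_filter.1 hx).2
      · simp
  have hq' : (1 : ℝ) ≤ q := by exact_mod_cast hq
  unfold edges
  push_cast
  refine (Finset.sum_le_sum fun i _ => hone i).trans ?_
  rw [Finset.sum_add_distrib, Fin.sum_univ_add, mul_add]
  refine add_le_add ?_ ?_
  · have h0 : 0 ≤ ∑ i : Fin n, om (Z (Fin.castAdd s i)) := Finset.sum_nonneg fun i _ => om_nonneg _
    nlinarith
  · rw [Finset.sum_comm, Finset.mul_sum]
    refine Finset.sum_le_sum fun u _ => ?_
    rw [← Finset.sum_filter, Finset.sum_const, nsmul_eq_mul]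
    have h1 : (Finset.univ.filter fun i => i ∈ S u).card ≤ q := by
      have : (Finset.univ.filter fun i => i ∈ S u) = S u := by
        ext i
        simp
      rw [this]
      exact hS1 u
    have h1' : ((Finset.univ.filter fun i => i ∈ S u).card : ℝ) ≤ q := by exact_mod_cast h1
    exact mul_le_mul_of_nonneg_right h1' (om_nonneg _)

end Pool.Agent.Lib_MP_22d2c8_shd
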