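import Pool.Agent.Lib_MP_22d2c8_shd.Free
import Pool.Agent.Lib_MP_22d2c8_shd.Flow

/-!
# The lower bound
-/

namespace Pool.Agent.Lib_MP_22d2c8_shd

variable {n s w : ℕ}

theorem sum_two_pow (m : ℕ) : ∑ i ∈ Finset.range m, 2 ^ i + 1 = 2 ^ m := by
  induction m with
  | zero => simp
  | succ m ih =>
    rw [Finset.sum_range_succ, pow_succ]
    omega

theorem sum_two_pow' (d : ℕ) : ∑ i ∈ Finset.range (d + 1), 2 ^ (d - i) = 2 ^ (d + 1) - 1 := by
  have h1 := Finset.sum_range_reflect (fun i => 2 ^ i) (d + 1)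
  simp only [Nat.add_sub_cancel] at h1
  have h2 := sum_two_pow (d + 1)
  omega

theorem cutSize_le (C : Circuit n s w) (K : Finset (Fin s)) (d : ℕ) (lev : Fin s → ℕ)
    (hK : ∀ u ∈ K, lev u < d → ∃ e, C.src e = Sum.inr u) (i : ℕ) (hi : i ≤ d) :
    cutSize C K d lev i ≤ w := by
  classical
  set Y : Finset (Fin w) := Finset.univ.filter fun e => ∃ u ∈ K, C.src e = Sum.inr u with hY
  have h1 : kb K lev i ≤ Y.card := by
    unfold kb
    have hch : ∀ u : {u // u ∈ K.filter fun u => lev u < i}, ∃ e : Fin w, C.src e = Sum.inr u.1 := by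
      rintro ⟨u, hu⟩
      rw [Finset.mem_filter] at hu
      exact hK u hu.1 (by omega)
    choose g hg using hch
    rw [← Fintype.card_coe (K.filter fun u => lev u < i)]
    have h3 : (Finset.univ.image g) ⊆ Y := by
      intro e he
      obtain ⟨u, _, rfl⟩ := Finset.mem_image.1 he
      rw [hY, Finset.mem_filter]
      exact ⟨Finset.mem_univ _, u.1, (Finset.mem_filter.1 u.2).1, hg u⟩
    have h4 : Function.Injective g := by
      intro u v h
      have h1 := hg u
      rw [h, hg v] at h1
      exact Subtype.ext (Sum.inr.inj h1).symm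
    have h5 := Finset.card_le_card h3
    rwa [Finset.card_image_of_injective _ h4, Finset.card_univ] at h5
  have h2 : Disjoint (Xc C K d lev i) Y := by
    rw [Finset.disjoint_left]
    intro e he he'
    rw [Xc, Finset.mem_filter] at he
    rw [hY, Finset.mem_filter] at he'
    obtain ⟨u, hu, hs⟩ := he'.2
    rw [sl_K hs hu] at he
    omega
  unfold cutSize
  calc (Xc C K d lev i).card + kb K lev i ≤ (Xc C K d lev i).card + Y.card := by omega
    _ = (Xc C K d lev i ∪ Y).card := (Finset.card_union_of_disjoint h2).symm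
    _ ≤ Fintype.card (Fin w) := Finset.card_le_univ _
    _ = w := Fintype.card_fin w

/-- the inequality for a set `K` that contains the output -/
theorem lower_aux (C : Circuit n s w) (val : (Fin n → Bool) → Fin s → Bool)
    (K : Finset (Fin s)) (hout : C.out ∈ K) (d : ℕ)
    (lev : Fin s → ℕ) (hd : ∀ u, lev u ≤ d)
    (hlev : ∀ e u, C.src e = Sum.inr u → u ∉ K →
      lev u ≤ lev (C.tgt e) ∧ (C.Shared u → lev u < lev (C.tgt e)))
    (hK : ∀ u ∈ K, lev u < d → ∃ e, C.src e = Sum.inr u)
    (A B : Finset (Fin n → Bool)) (E : ℝ) (hE0 : 0 ≤ E)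
    (hE : E ≤ ∑ i, om (ZV C val A B (Sum.inl i))) :
    E ^ 2 ^ (d + 1) ≤
      (K.card : ℝ) * (w : ℝ) ^ (2 ^ (d + 1) - 1) * ((A.card : ℝ) * B.card) ^ 2 ^ d := by
  set N : ℝ := Real.sqrt (A.card * B.card) with hN
  have hN0 : 0 ≤ N := Real.sqrt_nonneg _
  have hN2 : N ^ 2 = (A.card : ℝ) * B.card := Real.sq_sqrt (by positivity)
  have h1 := flow_refined C K d lev hlev (fun e => om (ZE C val A B e))
    (fun v => om (ZV C val A B v)) N hN0 (fun e => om_nonneg _) (fun e => flowE_le C val A B e)
    (fun v => om_nonneg _) (fun v => flow_le C val A B v) (fun u => flow_split C val A B u)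
    (fun v hv => flow_join C val A B v (hv C.out hout)) hd E hE0 hE
  refine h1.trans ?_
  have h2 : ∏ i ∈ Finset.range (d + 1), ((cutSize C K d lev i : ℝ) * N) ^ 2 ^ (d - i) ≤
      ∏ i ∈ Finset.range (d + 1), ((w : ℝ) * N) ^ 2 ^ (d - i) := by
    refine Finset.prod_le_prod (fun i _ => by positivity) fun i hi => ?_
    rw [Finset.mem_range] at hi
    refine pow_le_pow_left₀ (by positivity) (mul_le_mul_of_nonneg_right ?_ hN0) _
    exact_mod_cast cutSize_le C K d lev hK i (by omega)
  rw [Finset.prod_pow_eq_pow_sum, sum_two_pow'] at h2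
  have h3 : (0 : ℝ) ≤ N * K.card := by positivity
  refine (mul_le_mul_of_nonneg_right h2 h3).trans (le_of_eq ?_)
  have h4 : N ^ 2 ^ (d + 1) = ((A.card : ℝ) * B.card) ^ 2 ^ d := by
    rw [pow_succ, mul_comm (2 ^ d) 2, pow_mul, hN2]
  have h5 : N ^ 2 ^ (d + 1) = N ^ (2 ^ (d + 1) - 1) * N := by
    rw [← pow_succ]
    congr 1
    have : 0 < 2 ^ (d + 1) := by positivity
    omega
  rw [← h4, h5, mul_pow]
  ring

/-- Khrapchenko's inequality for circuits with few shared gates on a path -/
theorem lower (C : Circuit n s w) (f : (Fin n → Bool) → Bool) (hC : C.Computes f)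
    (K : Finset (Fin s)) (hK : ∀ u ∈ K, C.Shared u) (q : ℕ) (hq : 1 ≤ q) (d : ℕ)
    (hd : C.SharingLE K q d)
    (A B : Finset (Fin n → Bool)) (hA : ∀ x ∈ A, f x = false) (hB : ∀ y ∈ B, f y = true) :
    edges A B ^ 2 ^ (d + 1) ≤
      (K.card + 1) * q ^ 2 ^ (d + 1) * w ^ (2 ^ (d + 1) - 1) * (A.card * B.card) ^ 2 ^ d := by
  classical
  choose val hval hvf using hC
  obtain ⟨lev, hl1, hl2⟩ := hd
  have hA' : ∀ x ∈ A, val x C.out = false := fun x hx => by rw [hvf, hA x hx]
  have hB' : ∀ x ∈ B, val x C.out = true := fun x hx => by rw [hvf, hB x hx]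
  set G : Finset (Fin s) := Finset.univ.filter fun u => C.Local q u with hG
  have hGm : ∀ u, u ∉ G ↔ ¬ C.Local q u := by
    intro u
    rw [hG, Finset.mem_filter]
    simp
  set D : Circuit (n + s) s w := cutC C G with hD
  have hsh : ∀ u, D.Shared u → C.Shared u := by
    rintro u ⟨e, e', hne, h1, h2⟩
    exact ⟨e, e', hne, (cut_src_inr.1 h1).1, (cut_src_inr.1 h2).1⟩
  have hq0 : (0 : ℝ) < q := by exact_mod_cast hq
  have hEs : (edges A B : ℝ) / q ≤ ∑ j, om (ZV D (valc val) (A.image (extG val))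
      (B.image (extG val)) (Sum.inl j)) := by
    rw [div_le_iff₀ hq0, mul_comm]
    exact flow_edges C val hval q hq G (fun u hu => (Finset.mem_filter.1 hu).2) A B hA' hB'
  have hcA : (A.image (extG val)).card = A.card := Finset.card_image_of_injective _ (extG_injective _)
  have hcB : (B.image (extG val)).card = B.card := Finset.card_image_of_injective _ (extG_injective _)
  have hE0 : (0 : ℝ) ≤ (edges A B : ℝ) / q := by positivity
  have key : ((edges A B : ℝ) / q) ^ 2 ^ (d + 1) ≤ ((insert D.out (K \ G)).card : ℝ) *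
      (w : ℝ) ^ (2 ^ (d + 1) - 1) * ((A.card : ℝ) * B.card) ^ 2 ^ d := by
    rw [← hcA, ← hcB]
    have hlv : ∀ e u, D.src e = Sum.inr u → u ∉ insert D.out (K \ G) →
        lev u ≤ lev (D.tgt e) ∧ (D.Shared u → lev u < lev (D.tgt e)) := by
      intro e u hs hu
      obtain ⟨h1, h2⟩ := cut_src_inr.1 hs
      have h3 : u ∉ K := fun h =>
        hu (Finset.mem_insert_of_mem (Finset.mem_sdiff.2 ⟨h, h2⟩))
      have h4 := hl2 e u h1 h3 ((hGm u).1 h2)
      exact ⟨h4.1, fun h => h4.2 (hsh u h)⟩
    have hKw : ∀ u ∈ K \ G, ∃ e, D.src e = Sum.inr u := by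
      intro u hu
      rw [Finset.mem_sdiff] at hu
      obtain ⟨e, _, _, he, _⟩ := hK u hu.1
      exact ⟨e, cut_src_inr.2 ⟨he, hu.2⟩⟩
    by_cases ho : ∃ e, D.src e = Sum.inr D.out
    · refine lower_aux D (valc val) (insert D.out (K \ G)) (Finset.mem_insert_self _ _) d lev hl1
        hlv ?_ _ _ _ hE0 hEs
      intro u hu _
      rcases Finset.mem_insert.1 hu with rfl | hu
      · exact ho
      · exact hKw u hu
    · refine lower_aux D (valc val) (insert D.out (K \ G)) (Finset.mem_insert_self _ _) d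
        (Function.update lev D.out d) ?_ ?_ ?_ _ _ _ hE0 hEs
      · intro u
        by_cases hu : u = D.out
        · subst hu
          rw [Function.update_self]
        · rw [Function.update_of_ne hu]
          exact hl1 u
      · intro e u hs hu
        have hne : u ≠ D.out := fun h => hu (h ▸ Finset.mem_insert_self _ _)
        have h1 := hlv e u hs hu
        rw [Function.update_of_ne hne]
        by_cases ht : D.tgt e = D.out
        · have h3 := hl1 (D.tgt e)
          rw [ht, Function.update_self]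
          rw [ht] at h1 h3
          exact ⟨by omega, fun h => lt_of_lt_of_le (h1.2 h) h3⟩
        · rw [Function.update_of_ne ht]
          exact h1
      · intro u hu hlt
        rcases Finset.mem_insert.1 hu with rfl | hu
        · rw [Function.update_self] at hlt
          exact absurd hlt (lt_irrefl _)
        · exact hKw u hu
  have hcard : ((insert D.out (K \ G)).card : ℝ) ≤ (K.card : ℝ) + 1 := by
    have h1 : (insert D.out (K \ G)).card ≤ K.card + 1 :=
      (Finset.card_insert_le _ _).trans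
        (Nat.add_le_add_right (Finset.card_le_card Finset.sdiff_subset) 1)
    exact_mod_cast h1
  have h2 : ((edges A B : ℝ) / q) ^ 2 ^ (d + 1) ≤
      ((K.card : ℝ) + 1) * (w : ℝ) ^ (2 ^ (d + 1) - 1) *
      ((A.card : ℝ) * B.card) ^ 2 ^ d := by
    refine key.trans ?_
    apply mul_le_mul_of_nonneg_right _ (by positivity)
    exact mul_le_mul_of_nonneg_right hcard (by positivity)
  rw [div_pow, div_le_iff₀ (by positivity)] at h2
  have h3 : (edges A B : ℝ) ^ 2 ^ (d + 1) ≤ ((K.card : ℝ) + 1) * (q : ℝ) ^ 2 ^ (d + 1) *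
      (w : ℝ) ^ (2 ^ (d + 1) - 1) * ((A.card : ℝ) * B.card) ^ 2 ^ d := by
    refine h2.trans (le_of_eq ?_)
    ring
  exact_mod_cast h3

end Pool.Agent.Lib_MP_22d2c8_shd
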