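import Pool.Agent.Lib_MP_22d2c8_shd.Lower

/-!
# Parity, on average
-/

namespace Pool.Agent.Lib_MP_22d2c8_shd

variable {n s w : ℕ}

theorem flip_flip (x : Fin n → Bool) (i : Fin n) : flip (flip x i) i = x := by
  funext j
  unfold flip
  by_cases hj : j = i
  · subst hj
    simp
  · simp [Function.update_of_ne hj]

theorem parity_flip (x : Fin n → Bool) (i : Fin n) : parity (flip x i) = !(parity x) := by
  unfold parity
  cases hx : x i with
  | true =>
    have h1 : (Finset.univ.filter fun j => x j = true) =
        insert i (Finset.univ.filter fun j => flip x i j = true) := by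
      ext j
      rw [Finset.mem_insert, Finset.mem_filter, Finset.mem_filter]
      unfold flip
      by_cases hj : j = i
      · subst hj
        simp [hx]
      · simp [hj]
    have h2 : i ∉ Finset.univ.filter fun j => flip x i j = true := by
      rw [Finset.mem_filter]
      unfold flip
      simp [hx]
    rw [h1, Finset.card_insert_of_notMem h2]
    simp only [Nat.odd_add_one, Nat.not_odd_iff_even]
    by_cases h3 : Odd (Finset.univ.filter fun j => flip x i j = true).card
    · have : ¬ Even (Finset.univ.filter fun j => flip x i j = true).card :=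
        Nat.not_even_iff_odd.2 h3
      simp [h3, this]
    · have : Even (Finset.univ.filter fun j => flip x i j = true).card :=
        Nat.not_odd_iff_even.1 h3
      simp [h3, this]
  | false =>
    have h1 : (Finset.univ.filter fun j => flip x i j = true) =
        insert i (Finset.univ.filter fun j => x j = true) := by
      ext j
      rw [Finset.mem_insert, Finset.mem_filter, Finset.mem_filter]
      unfold flip
      by_cases hj : j = i
      · subst hj
        simp [hx]
      · simp [hj]
    have h2 : i ∉ Finset.univ.filter fun j => x j = true := by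
      rw [Finset.mem_filter]
      simp [hx]
    rw [h1, Finset.card_insert_of_notMem h2]
    by_cases h3 : Odd (Finset.univ.filter fun j => x j = true).card
    · have : ¬ Odd ((Finset.univ.filter fun j => x j = true).card + 1) := by
        rw [Nat.odd_add_one, not_not]
        exact h3
      simp [h3, this]
    · have : Odd ((Finset.univ.filter fun j => x j = true).card + 1) := by
        rw [Nat.odd_add_one]
        exact h3
      simp [h3, this]

/-- many sensitive edges in direction `i` -/
theorem agree_edges (f : (Fin n → Bool) → Bool) (i : Fin n) :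
    2 * (Finset.univ.filter fun x => f x = parity x).card ≤ 2 ^ n +
      2 * ((Finset.univ.filter fun x => f x = false).filter
        fun x => flip x i ∈ Finset.univ.filter fun x => f x = true).card := by
  classical
  set P : Finset (Fin n → Bool) := Finset.univ.filter fun x => f x = parity x with hP
  set P' : Finset (Fin n → Bool) := P.image (fun x => flip x i) with hP'
  set D : Finset (Fin n → Bool) := (Finset.univ.filter fun x => f x = false).filter
        fun x => flip x i ∈ Finset.univ.filter fun x => f x = true with hD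
  set D' : Finset (Fin n → Bool) := D.image (fun x => flip x i) with hD'
  have h1 : P'.card = P.card := Finset.card_image_of_injective _ (flip_injective i)
  have h2 : D'.card = D.card := Finset.card_image_of_injective _ (flip_injective i)
  have h3 : P ∩ P' ⊆ D ∪ D' := by
    intro x hx
    rw [Finset.mem_inter] at hx
    obtain ⟨hx1, hx2⟩ := hx
    rw [hP, Finset.mem_filter] at hx1
    rw [hP', Finset.mem_image] at hx2
    obtain ⟨z, hz, rfl⟩ := hx2
    rw [hP, Finset.mem_filter] at hz
    rw [parity_flip] at hx1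
    rw [Finset.mem_union]
    cases hp : parity z with
    | true =>
      left
      rw [hD, Finset.mem_filter, Finset.mem_filter, Finset.mem_filter, flip_flip]
      refine ⟨⟨Finset.mem_univ _, ?_⟩, Finset.mem_univ _, ?_⟩
      · rw [hx1.2, hp]; rfl
      · rw [hz.2, hp]
    | false =>
      right
      rw [hD', Finset.mem_image]
      refine ⟨z, ?_, rfl⟩
      rw [hD, Finset.mem_filter, Finset.mem_filter, Finset.mem_filter]
      refine ⟨⟨Finset.mem_univ _, ?_⟩, Finset.mem_univ _, ?_⟩
      · rw [hz.2, hp]
      · rw [hx1.2, hp]; rfl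
  have h4 : (P ∪ P').card + (P ∩ P').card = P.card + P'.card := Finset.card_union_add_card_inter _ _
  have h5 : (P ∪ P').card ≤ 2 ^ n := by
    refine (Finset.card_le_univ _).trans (le_of_eq ?_)
    simp
  have h6 : (P ∩ P').card ≤ (D ∪ D').card := Finset.card_le_card h3
  have h7 : (D ∪ D').card ≤ D.card + D'.card := Finset.card_union_le _ _
  omega

/-- parity on average -/
theorem parity_lower (C : Circuit n s w) (f : (Fin n → Bool) → Bool) (hC : C.Computes f)
    (K : Finset (Fin s)) (hK : ∀ u ∈ K, C.Shared u) (q : ℕ) (hq : 1 ≤ q) (d : ℕ)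
    (hd : C.SharingLE K q d) (δ : ℝ) (hδ : 0 ≤ δ)
    (ha : (1 + δ) / 2 * 2 ^ n ≤ (Finset.univ.filter fun x => f x = parity x).card) :
    (δ * n / q) ^ 2 ^ (d + 1) ≤ (K.card + 1) * (w : ℝ) ^ (2 ^ (d + 1) - 1) := by
  set A : Finset (Fin n → Bool) := Finset.univ.filter fun x => f x = false with hA
  set B : Finset (Fin n → Bool) := Finset.univ.filter fun x => f x = true with hB
  have h1 := lower C f hC K hK q hq d hd A B (fun x hx => (Finset.mem_filter.1 hx).2)
    (fun x hx => (Finset.mem_filter.1 hx).2)
  have h1' : (edges A B : ℝ) ^ 2 ^ (d + 1) ≤ ((K.card : ℝ) + 1) * (q : ℝ) ^ 2 ^ (d + 1) *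
      (w : ℝ) ^ (2 ^ (d + 1) - 1) * ((A.card : ℝ) * B.card) ^ 2 ^ d := by exact_mod_cast h1
  have hq0 : (0 : ℝ) < q := by exact_mod_cast hq
  have h2 : δ * n * 2 ^ n ≤ 2 * (edges A B : ℝ) := by
    have h3 : ∀ i : Fin n, δ * 2 ^ n ≤ 2 * ((A.filter fun x => flip x i ∈ B).card : ℝ) := by
      intro i
      have h4 := agree_edges f i
      have h5 : (2 : ℝ) * ((Finset.univ.filter fun x => f x = parity x).card : ℝ) ≤ 2 ^ n +
          2 * ((A.filter fun x => flip x i ∈ B).card : ℝ) := by exact_mod_cast h4
      linarith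
    have h6 : ∑ i : Fin n, δ * 2 ^ n ≤
        ∑ i : Fin n, 2 * ((A.filter fun x => flip x i ∈ B).card : ℝ) :=
      Finset.sum_le_sum fun i _ => h3 i
    rw [Finset.sum_const, Finset.card_univ, Fintype.card_fin, nsmul_eq_mul, ← Finset.mul_sum] at h6
    unfold edges
    push_cast
    linarith
  have hAB : (A.card : ℝ) + B.card = 2 ^ n := by
    have h3 : A.card + B.card = 2 ^ n := by
      rw [hA, hB, ← Finset.card_union_of_disjoint]
      · have h4 : (Finset.univ.filter fun x : Fin n → Bool => f x = false) ∪
            (Finset.univ.filter fun x : Fin n → Bool => f x = true) = Finset.univ := by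
          ext x
          cases hfx : f x <;> simp [hfx]
        rw [h4]
        simp
      · rw [Finset.disjoint_left]
        intro x hx hx'
        rw [Finset.mem_filter] at hx hx'
        rw [hx.2] at hx'
        exact Bool.false_ne_true hx'.2
    exact_mod_cast h3
  have h4 : 4 * ((A.card : ℝ) * B.card) ≤ (2 ^ n) ^ 2 := by
    rw [← hAB]
    nlinarith [sq_nonneg ((A.card : ℝ) - B.card)]
  have hpow : 2 ^ (d + 1) = 2 * 2 ^ d := by rw [pow_succ]; ring
  have h5 : (δ * n * 2 ^ n) ^ 2 ^ (d + 1) ≤
      ((K.card : ℝ) + 1) * (q : ℝ) ^ 2 ^ (d + 1) * (w : ℝ) ^ (2 ^ (d + 1) - 1) *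
        (2 ^ n) ^ 2 ^ (d + 1) := by
    have h6 : (2 * (edges A B : ℝ)) ^ 2 ^ (d + 1) = 4 ^ 2 ^ d * (edges A B : ℝ) ^ 2 ^ (d + 1) := by
      rw [mul_pow]
      congr 1
      rw [hpow, pow_mul]
      norm_num
    have h7 : (4 * ((A.card : ℝ) * B.card)) ^ 2 ^ d ≤ (2 ^ n) ^ 2 ^ (d + 1) := by
      have h8 := pow_le_pow_left₀ (by positivity) h4 (2 ^ d)
      rwa [← pow_mul, ← hpow] at h8
    calc (δ * n * 2 ^ n) ^ 2 ^ (d + 1) ≤ (2 * (edges A B : ℝ)) ^ 2 ^ (d + 1) :=
          pow_le_pow_left₀ (by positivity) h2 _
      _ = 4 ^ 2 ^ d * (edges A B : ℝ) ^ 2 ^ (d + 1) := h6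
      _ ≤ 4 ^ 2 ^ d * (((K.card : ℝ) + 1) * (q : ℝ) ^ 2 ^ (d + 1) *
            (w : ℝ) ^ (2 ^ (d + 1) - 1) *
            ((A.card : ℝ) * B.card) ^ 2 ^ d) := mul_le_mul_of_nonneg_left h1' (by positivity)
      _ = ((K.card : ℝ) + 1) * (q : ℝ) ^ 2 ^ (d + 1) * (w : ℝ) ^ (2 ^ (d + 1) - 1) *
            (4 * ((A.card : ℝ) * B.card)) ^ 2 ^ d := by rw [mul_pow 4]; ring
      _ ≤ _ := mul_le_mul_of_nonneg_left h7 (by positivity)
  rw [mul_pow] at h5
  have h6 := le_of_mul_le_mul_right h5 (by positivity)
  rw [div_pow, div_le_iff₀ (by positivity)]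
  refine h6.trans (le_of_eq ?_)
  ring

end Pool.Agent.Lib_MP_22d2c8_shd
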