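import Pool.Agent.Lib_MP_22d2c8_shd.Defs
import Pool.Agent.Lib_MP_22d2c8_shd.Cover

/-!
# Routes from the output to an input

A pair `(x, y)` is routed from the output to an input on which `x` and `y` differ.
-/

namespace Pool.Agent.Lib_MP_22d2c8_shd

variable {n s w : ℕ}

/-- controlling bit of a gate -/
def ctl (C : Circuit n s w) (u : Fin s) : Bool := !(C.conj u)

open Classical in
/-- a wire into `u` with the controlling bit, if there is one -/
noncomputable def pick (C : Circuit n s w) (val : (Fin n → Bool) → Fin s → Bool) (u : Fin s)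
    (x : Fin n → Bool) : Option (Fin w) :=
  if h : ∃ e, C.tgt e = u ∧ C.bit x (val x) e = ctl C u then some h.choose else none

theorem pick_some {C : Circuit n s w} {val : (Fin n → Bool) → Fin s → Bool} {u : Fin s}
    {x : Fin n → Bool} {e : Fin w} (h : pick C val u x = some e) :
    C.tgt e = u ∧ C.bit x (val x) e = ctl C u := by
  unfold pick at h
  split_ifs at h with h1
  · rw [Option.some.injEq] at h
    rw [← h]
    exact h1.choose_spec

theorem pick_none {C : Circuit n s w} {val : (Fin n → Bool) → Fin s → Bool} {u : Fin s}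
    {x : Fin n → Bool} (h : pick C val u x = none) (e : Fin w) (he : C.tgt e = u) :
    C.bit x (val x) e ≠ ctl C u := by
  unfold pick at h
  split_ifs at h with h1
  · intro hc
    exact h1 ⟨e, he, hc⟩

/-- a gate has the controlling value iff a wire is picked -/
theorem val_eq_ctl {C : Circuit n s w} {val : (Fin n → Bool) → Fin s → Bool} {u : Fin s}
    {x : Fin n → Bool} (hr : C.IsRun x (val x)) :
    val x u = ctl C u ↔ ∃ e, pick C val u x = some e := by
  have h1 : val x u = ctl C u ↔ ∃ e, C.tgt e = u ∧ C.bit x (val x) e = ctl C u := by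
    have h2 := hr u
    unfold ctl
    by_cases hc : C.conj u = true
    · rw [if_pos hc] at h2
      rw [hc, Bool.not_true]
      constructor
      · intro h3
        by_contra h4
        push Not at h4
        have h5 : val x u = true := by
          rw [h2]
          intro e he
          have := h4 e he
          simpa using this
        rw [h3] at h5
        exact Bool.false_ne_true h5
      · rintro ⟨e, he, hb⟩
        by_contra h4
        have h5 : val x u = true := by simpa using h4
        rw [h2] at h5
        rw [h5 e he] at hb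
        exact Bool.false_ne_true hb.symm
    · rw [if_neg hc] at h2
      have hc' : C.conj u = false := by simpa using hc
      rw [hc', Bool.not_false]
      exact h2
  rw [h1]
  unfold pick
  constructor
  · intro h
    rw [dif_pos h]
    exact ⟨_, rfl⟩
  · rintro ⟨e, he⟩
    split_ifs at he with h
    exact h

/-- wire `e` is used at its gate by the pair `(x, y)` -/
def Used (C : Circuit n s w) (val : (Fin n → Bool) → Fin s → Bool) (x y : Fin n → Bool)
    (e : Fin w) : Prop :=
  (pick C val (C.tgt e) x = some e ∧ pick C val (C.tgt e) y = none) ∨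
    (pick C val (C.tgt e) x = none ∧ pick C val (C.tgt e) y = some e)

/-- the vertices on the route of `(x, y)` -/
inductive Vis (C : Circuit n s w) (val : (Fin n → Bool) → Fin s → Bool) (x y : Fin n → Bool) :
    Fin n ⊕ Fin s → Prop
  | out : Vis C val x y (Sum.inr C.out)
  | step (e : Fin w) : Vis C val x y (Sum.inr (C.tgt e)) → Used C val x y e →
      Vis C val x y (C.src e)

/-- if the values at a gate differ then some wire is used -/
theorem exists_used {C : Circuit n s w} {val : (Fin n → Bool) → Fin s → Bool}
    {x y : Fin n → Bool} (hx : C.IsRun x (val x)) (hy : C.IsRun y (val y)) (u : Fin s)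
    (h : val x u ≠ val y u) :
    ∃ e, C.tgt e = u ∧ Used C val x y e ∧ C.bit x (val x) e ≠ C.bit y (val y) e := by
  have key : ∀ x y : Fin n → Bool, C.IsRun x (val x) → C.IsRun y (val y) → val x u = ctl C u →
      val y u ≠ ctl C u → ∃ e, C.tgt e = u ∧ pick C val u x = some e ∧ pick C val u y = none ∧
        C.bit x (val x) e ≠ C.bit y (val y) e := by
    intro x y hx hy h1 h2
    obtain ⟨e, he⟩ := (val_eq_ctl hx).1 h1
    have h3 : pick C val u y = none := by
      by_contra h4
      obtain ⟨e', he'⟩ := Option.ne_none_iff_exists'.1 h4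
      exact h2 ((val_eq_ctl hy).2 ⟨e', he'⟩)
    obtain ⟨h5, h6⟩ := pick_some he
    refine ⟨e, h5, he, h3, ?_⟩
    intro h7
    exact pick_none h3 e h5 (h7 ▸ h6)
  by_cases h1 : val x u = ctl C u
  · have h2 : val y u ≠ ctl C u := fun h3 => h (h1.trans h3.symm)
    obtain ⟨e, he, h4, h5, h6⟩ := key x y hx hy h1 h2
    refine ⟨e, he, Or.inl ?_, h6⟩
    rw [he]
    exact ⟨h4, h5⟩
  · have h2 : val y u = ctl C u := by
      have a1 : ∀ a b c : Bool, a ≠ b → a ≠ c → b = c := by decide
      exact a1 _ _ _ h h1
    obtain ⟨e, he, h4, h5, h6⟩ := key y x hy hx h2 h1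
    refine ⟨e, he, Or.inr ?_, h6.symm⟩
    rw [he]
    exact ⟨h5, h4⟩

/-- the route ends at an input where `x` and `y` differ -/
theorem exists_input {C : Circuit n s w} {val : (Fin n → Bool) → Fin s → Bool}
    {x y : Fin n → Bool} (hx : C.IsRun x (val x)) (hy : C.IsRun y (val y))
    (h : val x C.out ≠ val y C.out) : ∃ i, Vis C val x y (Sum.inl i) ∧ x i ≠ y i := by
  have key : ∀ (r : ℕ) (u : Fin s), C.rank u ≤ r → Vis C val x y (Sum.inr u) →
      val x u ≠ val y u → ∃ i, Vis C val x y (Sum.inl i) ∧ x i ≠ y i := by
    intro r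
    induction r with
    | zero =>
      intro u hr hv hne
      obtain ⟨e, he, hu, hb⟩ := exists_used hx hy u hne
      subst he
      have hv' := Vis.step e hv hu
      rcases hs : C.src e with i | v
      · rw [hs] at hv'
        refine ⟨i, hv', ?_⟩
        intro hi
        apply hb
        unfold Circuit.bit
        rw [hs]
        simp [hi]
      · have := C.acyclic e v hs
        omega
    | succ r ih =>
      intro u hr hv hne
      obtain ⟨e, he, hu, hb⟩ := exists_used hx hy u hne
      subst he
      have hv' := Vis.step e hv hu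
      rcases hs : C.src e with i | v
      · rw [hs] at hv'
        refine ⟨i, hv', ?_⟩
        intro hi
        apply hb
        unfold Circuit.bit
        rw [hs]
        simp [hi]
      · rw [hs] at hv'
        refine ih v ?_ hv' ?_
        · have := C.acyclic e v hs
          omega
        · intro hi
          apply hb
          unfold Circuit.bit
          rw [hs]
          simp [hi]
  exact key (C.rank C.out) C.out le_rfl Vis.out h

/-- pairs whose route meets `v` -/
def ZV (C : Circuit n s w) (val : (Fin n → Bool) → Fin s → Bool)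
    (A B : Finset (Fin n → Bool)) (v : Fin n ⊕ Fin s) : Set ((Fin n → Bool) × (Fin n → Bool)) :=
  {p | (p.1 ∈ A ∧ p.2 ∈ B) ∧ Vis C val p.1 p.2 v}

/-- pairs whose route meets wire `e` -/
def ZE (C : Circuit n s w) (val : (Fin n → Bool) → Fin s → Bool)
    (A B : Finset (Fin n → Bool)) (e : Fin w) : Set ((Fin n → Bool) × (Fin n → Bool)) :=
  {p | p ∈ ZV C val A B (Sum.inr (C.tgt e)) ∧ Used C val p.1 p.2 e}

theorem flow_split (C : Circuit n s w) (val : (Fin n → Bool) → Fin s → Bool)
    (A B : Finset (Fin n → Bool)) (u : Fin s) :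
    ∑ e ∈ Finset.univ.filter (fun e => C.tgt e = u), om (ZE C val A B e) ^ 2 ≤
      om (ZV C val A B (Sum.inr u)) ^ 2 := by
  refine le_trans ?_ (om_split (pick C val u) (ZV C val A B (Sum.inr u)))
  rw [Finset.sum_filter]
  refine Finset.sum_le_sum fun e _ => ?_
  split_ifs with h
  · refine pow_le_pow_left₀ (om_nonneg _) (om_mono ?_) 2
    rintro p ⟨hp, hu⟩
    subst h
    exact ⟨hp, hu⟩
  · positivity

theorem flow_join (C : Circuit n s w) (val : (Fin n → Bool) → Fin s → Bool)
    (A B : Finset (Fin n → Bool)) (v : Fin n ⊕ Fin s) (hv : v ≠ Sum.inr C.out) :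
    om (ZV C val A B v) ≤
      ∑ e ∈ Finset.univ.filter (fun e => C.src e = v), om (ZE C val A B e) := by
  refine om_sum _ _ _ ?_
  rintro p ⟨hp, hvis⟩
  cases hvis with
  | out => exact absurd rfl hv
  | step e h1 h2 => exact ⟨e, by simp, ⟨hp, h1⟩, h2⟩

theorem flow_le (C : Circuit n s w) (val : (Fin n → Bool) → Fin s → Bool)
    (A B : Finset (Fin n → Bool)) (v : Fin n ⊕ Fin s) :
    om (ZV C val A B v) ≤ Real.sqrt (A.card * B.card) :=
  om_rect fun _ hp => hp.1

theorem flowE_le (C : Circuit n s w) (val : (Fin n → Bool) → Fin s → Bool)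
    (A B : Finset (Fin n → Bool)) (e : Fin w) :
    om (ZE C val A B e) ≤ Real.sqrt (A.card * B.card) :=
  om_rect fun _ hp => hp.1.1

theorem flip_injective (i : Fin n) : Function.Injective (fun x : Fin n → Bool => flip x i) := by
  intro x y h
  funext j
  have h1 := congrFun h j
  unfold flip at h1
  by_cases hj : j = i
  · subst hj
    simp only [Function.update_self] at h1
    simpa using h1
  · simpa [Function.update_of_ne hj] using h1

end Pool.Agent.Lib_MP_22d2c8_shd
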