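import Pool.Agent.Lib_MP_22d2c8_shd.Parity

/-!
# Circuits for parity with few shared gates on a path

Parity of `2 ^ A` bits by a binary tree of exclusive ors. Every exclusive or has three gates and
reads each of its two arguments twice. At height `h` there are `2 ^ E h` copies of every node: at a
height with `E h = 0` the node is shared by its readers, otherwise every reader has its own copy.
-/

namespace Pool.Agent.Lib_MP_22d2c8_shd

/-- gates: height minus one, node, copy, kind (`none` is the disjunction) -/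
abbrev GT (A : ℕ) (E : ℕ → ℕ) : Type :=
  Σ h : Fin A, Fin (2 ^ (A - 1 - h)) × Fin (2 ^ E (h + 1)) × Option Bool

theorem bd1 {A σ : ℕ} (h0 : 0 < A) (hσ : σ < 2 ^ (A - 1 - 0)) (q : Bool) :
    2 * σ + q.toNat < 2 ^ A := by
  have h1 : 2 ^ A = 2 * 2 ^ (A - 1 - 0) := by
    rw [← pow_succ']
    congr 1
    omega
  have h2 := Bool.toNat_lt q
  omega

theorem bd2 {A k σ : ℕ} (hk : k + 1 < A) (hσ : σ < 2 ^ (A - 1 - (k + 1))) (q : Bool) :
    2 * σ + q.toNat < 2 ^ (A - 1 - k) := by
  have h1 : 2 ^ (A - 1 - k) = 2 * 2 ^ (A - 1 - (k + 1)) := by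
    rw [← pow_succ']
    congr 1
    omega
  have h2 := Bool.toNat_lt q
  omega

/-- sources of the wires -/
def srcG (A : ℕ) (E : ℕ → ℕ) : GT A E × Bool → Fin (2 ^ A) ⊕ GT A E
  | (⟨h, σ, c, none⟩, q) => Sum.inr ⟨h, σ, c, some q⟩
  | (⟨⟨0, h0⟩, σ, _, some _⟩, q) => Sum.inl ⟨2 * σ.1 + q.toNat, bd1 h0 σ.2 q⟩
  | (⟨⟨k + 1, hk⟩, σ, c, some b⟩, q) =>
      Sum.inr ⟨⟨k, by omega⟩, ⟨2 * σ.1 + q.toNat, bd2 hk σ.2 q⟩,
        ⟨(2 * c.1 + b.toNat) % 2 ^ E (k + 1), Nat.mod_lt _ (by positivity)⟩, none⟩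

/-- signs of the wires -/
def negG (A : ℕ) (E : ℕ → ℕ) : GT A E × Bool → Bool
  | (⟨_, _, _, none⟩, _) => false
  | (⟨_, _, _, some b⟩, q) => xor q b

/-- ranks -/
def rankG (A : ℕ) (E : ℕ → ℕ) : GT A E → ℕ
  | ⟨h, _, _, none⟩ => 2 * h.1 + 1
  | ⟨h, _, _, some _⟩ => 2 * h.1

theorem rank_lt (A : ℕ) (E : ℕ → ℕ) (e : GT A E × Bool) (u : GT A E)
    (h : srcG A E e = Sum.inr u) : rankG A E u < rankG A E e.1 := by
  obtain ⟨⟨⟨k, hk⟩, σ, c, t⟩, q⟩ := e
  cases t with
  | none =>
    simp only [srcG, Sum.inr.injEq] at h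
    subst h
    simp [rankG]
  | some b =>
    cases k with
    | zero => simp [srcG] at h
    | succ k =>
      simp only [srcG, Sum.inr.injEq] at h
      subst h
      simp only [rankG]
      omega

/-- the circuit -/
noncomputable def parC (A : ℕ) (E : ℕ → ℕ) (hA : 0 < A) :
    Circuit (2 ^ A) (Fintype.card (GT A E)) (Fintype.card (GT A E × Bool)) where
  conj u := ((Fintype.equivFin (GT A E)).symm u).2.2.2.isSome
  tgt e := Fintype.equivFin (GT A E) ((Fintype.equivFin (GT A E × Bool)).symm e).1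
  src e := Sum.map id (Fintype.equivFin (GT A E))
    (srcG A E ((Fintype.equivFin (GT A E × Bool)).symm e))
  neg e := negG A E ((Fintype.equivFin (GT A E × Bool)).symm e)
  out := Fintype.equivFin (GT A E) ⟨⟨A - 1, by omega⟩, ⟨0, by positivity⟩, ⟨0, by positivity⟩, none⟩
  rank u := rankG A E ((Fintype.equivFin (GT A E)).symm u)
  acyclic := by
    intro e u h
    rw [Equiv.symm_apply_apply]
    apply rank_lt
    rcases hs : srcG A E ((Fintype.equivFin (GT A E × Bool)).symm e) with i | g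
    · rw [hs] at h
      simp at h
    · rw [hs] at h
      simp only [Sum.map_inr, Sum.inr.injEq] at h
      rw [← h, Equiv.symm_apply_apply]

/-- parities of the nodes -/
def PN (X : ℕ → Bool) : ℕ → ℕ → Bool
  | 0, σ => X σ
  | k + 1, σ => xor (PN X k (2 * σ)) (PN X k (2 * σ + 1))

/-- extension of an input by `false` -/
def ext {N : ℕ} (x : Fin N → Bool) (i : ℕ) : Bool := if h : i < N then x ⟨i, h⟩ else false

/-- values of the gates -/
def valG (A : ℕ) (E : ℕ → ℕ) (X : ℕ → Bool) : GT A E → Bool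
  | ⟨h, σ, _, none⟩ => PN X (h.1 + 1) σ.1
  | ⟨h, σ, _, some b⟩ => (xor b (PN X h.1 (2 * σ.1))) && (xor (!b) (PN X h.1 (2 * σ.1 + 1)))

theorem bit_eq (A : ℕ) (E : ℕ → ℕ) (hA : 0 < A) (x : Fin (2 ^ A) → Bool)
    (e : GT A E × Bool) :
    (parC A E hA).bit x (fun u => valG A E (ext x) ((Fintype.equivFin (GT A E)).symm u))
      (Fintype.equivFin (GT A E × Bool) e) =
    xor (negG A E e) (Sum.elim x (valG A E (ext x)) (srcG A E e)) := by
  unfold Circuit.bit parC
  simp only [Equiv.symm_apply_apply]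
  congr 1
  rcases srcG A E e with i | g
  · rfl
  · simp

theorem run_ok (A : ℕ) (E : ℕ → ℕ) (hA : 0 < A) (x : Fin (2 ^ A) → Bool) :
    (parC A E hA).IsRun x
      (fun u => valG A E (ext x) ((Fintype.equivFin (GT A E)).symm u)) := by
  intro u
  obtain ⟨g, rfl⟩ := (Fintype.equivFin (GT A E)).surjective u
  have htgt : ∀ e : GT A E × Bool, (parC A E hA).tgt (Fintype.equivFin (GT A E × Bool) e) =
      Fintype.equivFin (GT A E) e.1 := by
    intro e
    unfold parC
    simp
  have hall : ∀ (P : Fin (Fintype.card (GT A E × Bool)) → Prop),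
      (∀ e, (parC A E hA).tgt e = Fintype.equivFin (GT A E) g → P e) ↔
        (P (Fintype.equivFin (GT A E × Bool) (g, false)) ∧
          P (Fintype.equivFin (GT A E × Bool) (g, true))) := by
    intro P
    constructor
    · intro h
      exact ⟨h _ (htgt _), h _ (htgt _)⟩
    · rintro ⟨h1, h2⟩ e he
      obtain ⟨⟨g', q⟩, rfl⟩ := (Fintype.equivFin (GT A E × Bool)).surjective e
      rw [htgt] at he
      have hg : g' = g := (Fintype.equivFin (GT A E)).injective he
      subst hg
      cases q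
      · exact h1
      · exact h2
  have hex : ∀ (P : Fin (Fintype.card (GT A E × Bool)) → Prop),
      (∃ e, (parC A E hA).tgt e = Fintype.equivFin (GT A E) g ∧ P e) ↔
        (P (Fintype.equivFin (GT A E × Bool) (g, false)) ∨
          P (Fintype.equivFin (GT A E × Bool) (g, true))) := by
    intro P
    constructor
    · rintro ⟨e, he, hP⟩
      obtain ⟨⟨g', q⟩, rfl⟩ := (Fintype.equivFin (GT A E × Bool)).surjective e
      rw [htgt] at he
      have hg : g' = g := (Fintype.equivFin (GT A E)).injective he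
      subst hg
      cases q
      · exact Or.inl hP
      · exact Or.inr hP
    · rintro (h | h)
      · exact ⟨_, htgt _, h⟩
      · exact ⟨_, htgt _, h⟩
  rw [hall, hex, bit_eq, bit_eq]
  have hconj : (parC A E hA).conj (Fintype.equivFin (GT A E) g) = g.2.2.2.isSome :=
    congrArg (fun z : GT A E => z.2.2.2.isSome) (Equiv.symm_apply_apply _ g)
  rw [hconj]
  simp only [Equiv.symm_apply_apply]
  obtain ⟨⟨k, hk⟩, σ, c, t⟩ := g
  cases t with
  | none =>
    simp only [Option.isSome_none, Bool.false_eq_true, if_false, srcG, negG, Sum.elim_inr, valG,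
      PN, Bool.false_xor, Bool.not_false, Bool.not_true, Bool.true_xor]
    cases PN (ext x) k (2 * σ.1) <;> cases PN (ext x) k (2 * σ.1 + 1) <;> simp
  | some b =>
    cases k with
    | zero =>
      have h1 : ∀ q : Bool, x ⟨2 * σ.1 + q.toNat, bd1 hk σ.2 q⟩ = ext x (2 * σ.1 + q.toNat) := by
        intro q
        unfold ext
        rw [dif_pos (bd1 hk σ.2 q)]
      simp only [Option.isSome_some, if_true, srcG, negG, Sum.elim_inl, valG, PN, h1]
      cases b <;> simp
    | succ k =>
      simp only [Option.isSome_some, if_true, srcG, negG, Sum.elim_inr, valG]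
      cases b <;> simp

theorem xor_odd (a b : ℕ) : xor (decide (Odd a)) (decide (Odd b)) = decide (Odd (a + b)) := by
  by_cases ha : Odd a
  · by_cases hb : Odd b
    · have h : ¬ Odd (a + b) := by
        rw [Nat.not_odd_iff_even]
        exact ha.add_odd hb
      simp [ha, hb, h]
    · have h : Odd (a + b) := ha.add_even (Nat.not_odd_iff_even.1 hb)
      simp [ha, hb, h]
  · by_cases hb : Odd b
    · have h : Odd (a + b) := (Nat.not_odd_iff_even.1 ha).add_odd hb
      simp [ha, hb, h]
    · have h : ¬ Odd (a + b) := by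
        rw [Nat.not_odd_iff_even]
        exact (Nat.not_odd_iff_even.1 ha).add (Nat.not_odd_iff_even.1 hb)
      simp [ha, hb, h]

theorem PN_eq (X : ℕ → Bool) (k σ : ℕ) :
    PN X k σ = decide (Odd ((Finset.Ico (σ * 2 ^ k) ((σ + 1) * 2 ^ k)).filter
      fun i => X i = true).card) := by
  induction k generalizing σ with
  | zero =>
    have h1 : Finset.Ico (σ * 2 ^ 0) ((σ + 1) * 2 ^ 0) = {σ} := by
      ext i
      simp only [pow_zero, mul_one, Finset.mem_Ico, Finset.mem_singleton]
      omega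
    rw [h1, Finset.filter_singleton]
    change X σ = _
    cases hX : X σ <;> simp
  | succ k ih =>
    change xor (PN X k (2 * σ)) (PN X k (2 * σ + 1)) = _
    rw [ih, ih]
    have h1 : Finset.Ico (σ * 2 ^ (k + 1)) ((σ + 1) * 2 ^ (k + 1)) =
        Finset.Ico (2 * σ * 2 ^ k) ((2 * σ + 1) * 2 ^ k) ∪
          Finset.Ico ((2 * σ + 1) * 2 ^ k) ((2 * σ + 1 + 1) * 2 ^ k) := by
      have e1 : σ * 2 ^ (k + 1) = 2 * σ * 2 ^ k := by rw [pow_succ]; ring
      have e2 : (σ + 1) * 2 ^ (k + 1) = (2 * σ + 1 + 1) * 2 ^ k := by rw [pow_succ]; ring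
      rw [e1, e2, Finset.Ico_union_Ico_eq_Ico]
      · exact Nat.mul_le_mul_right _ (by omega)
      · exact Nat.mul_le_mul_right _ (by omega)
    have h2 : Disjoint ((Finset.Ico (2 * σ * 2 ^ k) ((2 * σ + 1) * 2 ^ k)).filter
        fun i => X i = true) ((Finset.Ico ((2 * σ + 1) * 2 ^ k) ((2 * σ + 1 + 1) * 2 ^ k)).filter
        fun i => X i = true) := by
      refine Finset.disjoint_filter_filter ?_
      exact Finset.Ico_disjoint_Ico_consecutive _ _ _
    rw [h1, Finset.filter_union, Finset.card_union_of_disjoint h2]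
    set a := ((Finset.Ico (2 * σ * 2 ^ k) ((2 * σ + 1) * 2 ^ k)).filter fun i => X i = true).card
    set b := ((Finset.Ico ((2 * σ + 1) * 2 ^ k) ((2 * σ + 1 + 1) * 2 ^ k)).filter
      fun i => X i = true).card
    exact xor_odd a b

theorem computes_parity (A : ℕ) (E : ℕ → ℕ) (hA : 0 < A) : (parC A E hA).Computes parity := by
  intro x
  refine ⟨_, run_ok A E hA x, ?_⟩
  have hout : (Fintype.equivFin (GT A E)).symm (parC A E hA).out =
      ⟨⟨A - 1, by omega⟩, ⟨0, by positivity⟩, ⟨0, by positivity⟩, none⟩ := by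
    unfold parC
    simp
  change valG A E (ext x) ((Fintype.equivFin (GT A E)).symm (parC A E hA).out) = parity x
  rw [hout]
  change PN (ext x) (A - 1 + 1) 0 = parity x
  have h1 : A - 1 + 1 = A := by omega
  rw [h1, PN_eq]
  unfold parity
  have h2 : ((Finset.Ico (0 * 2 ^ A) ((0 + 1) * 2 ^ A)).filter fun i => ext x i = true) =
      (Finset.univ.filter fun i => x i = true).map Fin.valEmbedding := by
    ext i
    rw [Finset.mem_map, Finset.mem_filter, Finset.mem_Ico]
    constructor
    · rintro ⟨⟨_, h3⟩, h4⟩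
      have h5 : i < 2 ^ A := by omega
      refine ⟨⟨i, h5⟩, Finset.mem_filter.2 ⟨Finset.mem_univ _, ?_⟩, rfl⟩
      unfold ext at h4
      rwa [dif_pos h5] at h4
    · rintro ⟨j, hj, rfl⟩
      rw [Finset.mem_filter] at hj
      refine ⟨⟨by simp, ?_⟩, ?_⟩
      · have := j.2
        change j.1 < _
        omega
      · unfold ext
        change (if h : j.1 < 2 ^ A then x ⟨j.1, h⟩ else false) = true
        rw [dif_pos j.2]
        exact hj.2
  rw [h2, Finset.card_map]

end Pool.Agent.Lib_MP_22d2c8_shd
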