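import Pool.Agent.Lib_MP_22d2c8_shd.Upper

/-!
# Sharing depth and size of the parity circuits
-/

namespace Pool.Agent.Lib_MP_22d2c8_shd

theorem src_inj (A : ℕ) (E : ℕ → ℕ) (e1 e2 : GT A E × Bool) (g : GT A E)
    (h1 : srcG A E e1 = Sum.inr g) (h2 : srcG A E e2 = Sum.inr g)
    (hg : g.2.2.2 = none → E (g.1 + 1) = E (g.1 + 2) + 1) : e1 = e2 := by
  obtain ⟨⟨⟨k1, hk1⟩, σ1, c1, t1⟩, q1⟩ := e1
  obtain ⟨⟨⟨k2, hk2⟩, σ2, c2, t2⟩, q2⟩ := e2
  cases t1 with
  | none =>
    simp only [srcG, Sum.inr.injEq] at h1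
    subst h1
    cases t2 with
    | none =>
      simp only [srcG, Sum.inr.injEq, Sigma.mk.injEq, Fin.mk.injEq] at h2
      obtain ⟨rfl, h3⟩ := h2
      rw [heq_eq_eq, Prod.mk.injEq, Prod.mk.injEq, Option.some.injEq] at h3
      obtain ⟨rfl, rfl, rfl⟩ := h3
      rfl
    | some b2 =>
      cases k2 with
      | zero => simp [srcG] at h2
      | succ k2 =>
        simp only [srcG, Sum.inr.injEq, Sigma.mk.injEq, Fin.mk.injEq] at h2
        obtain ⟨rfl, h3⟩ := h2
        rw [heq_eq_eq, Prod.mk.injEq, Prod.mk.injEq] at h3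
        exact absurd h3.2.2 (by simp)
  | some b1 =>
    cases k1 with
    | zero => simp [srcG] at h1
    | succ k1 =>
      simp only [srcG, Sum.inr.injEq] at h1
      subst h1
      cases t2 with
      | none =>
        simp only [srcG, Sum.inr.injEq, Sigma.mk.injEq, Fin.mk.injEq] at h2
        obtain ⟨rfl, h3⟩ := h2
        rw [heq_eq_eq, Prod.mk.injEq, Prod.mk.injEq] at h3
        exact absurd h3.2.2 (by simp)
      | some b2 =>
        cases k2 with
        | zero => simp [srcG] at h2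
        | succ k2 =>
          simp only [srcG, Sum.inr.injEq, Sigma.mk.injEq, Fin.mk.injEq] at h2
          obtain ⟨rfl, h3⟩ := h2
          rw [heq_eq_eq, Prod.mk.injEq, Prod.mk.injEq, Fin.mk.injEq, Fin.mk.injEq] at h3
          obtain ⟨h4, h5, _⟩ := h3
          have hE : E (k2 + 1) = E (k2 + 1 + 1) + 1 := hg rfl
          have b1' := Bool.toNat_lt b1
          have b2' := Bool.toNat_lt b2
          have q1' := Bool.toNat_lt q1
          have q2' := Bool.toNat_lt q2
          have hp : 2 ^ E (k2 + 1) = 2 * 2 ^ E (k2 + 1 + 1) := by rw [hE, pow_succ]; ring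
          have hc1 : c1.1 < 2 ^ E (k2 + 1 + 1) := c1.2
          have hc2 : c2.1 < 2 ^ E (k2 + 1 + 1) := c2.2
          rw [Nat.mod_eq_of_lt (by omega), Nat.mod_eq_of_lt (by omega)] at h5
          have e1 : σ1 = σ2 := Fin.ext (by omega)
          have e2 : c1 = c2 := Fin.ext (by omega)
          have e3 : b1 = b2 := by
            have : b1.toNat = b2.toNat := by omega
            cases b1 <;> cases b2 <;> simp_all
          have e4 : q1 = q2 := by
            have : q1.toNat = q2.toNat := by omega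
            cases q1 <;> cases q2 <;> simp_all
          subst e1 e2 e3 e4
          rfl

theorem sharing (A : ℕ) (E : ℕ → ℕ) (hA : 0 < A) (lev : ℕ → ℕ) (d : ℕ)
    (hl : ∀ h, 1 ≤ h → h ≤ A → lev h ≤ d)
    (hE : ∀ h, 1 ≤ h → h < A →
      (E h = E (h + 1) + 1 ∧ lev h = lev (h + 1)) ∨ lev h < lev (h + 1)) :
    ∀ q, (parC A E hA).SharingLE ∅ q d := by
  intro q
  refine ⟨fun u => lev (((Fintype.equivFin (GT A E)).symm u).1 + 1), ?_, ?_⟩
  · intro u
    have := ((Fintype.equivFin (GT A E)).symm u).1.2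
    exact hl _ (by omega) (by omega)
  · intro e u hs _ _
    obtain ⟨e', rfl⟩ := (Fintype.equivFin (GT A E × Bool)).surjective e
    have hsrc : ∀ z : GT A E × Bool, (parC A E hA).src (Fintype.equivFin (GT A E × Bool) z) =
        Sum.map id (Fintype.equivFin (GT A E)) (srcG A E z) := by
      intro z
      unfold parC
      simp only [Equiv.symm_apply_apply]
    have htgt : (Fintype.equivFin (GT A E)).symm
        ((parC A E hA).tgt (Fintype.equivFin (GT A E × Bool) e')) = e'.1 := by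
      unfold parC
      simp only [Equiv.symm_apply_apply]
    have hinr : ∀ (z : GT A E × Bool) (g : GT A E), (parC A E hA).src
        (Fintype.equivFin (GT A E × Bool) z) = Sum.inr (Fintype.equivFin (GT A E) g) →
        srcG A E z = Sum.inr g := by
      intro z g h
      rw [hsrc] at h
      rcases hz : srcG A E z with i | g'
      · rw [hz] at h
        simp at h
      · rw [hz] at h
        simp only [Sum.map_inr, Sum.inr.injEq, EmbeddingLike.apply_eq_iff_eq] at h
        rw [h]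
    obtain ⟨g, rfl⟩ := (Fintype.equivFin (GT A E)).surjective u
    have hg := hinr e' g hs
    beta_reduce
    rw [htgt, Equiv.symm_apply_apply]
    have hns : (g.2.2.2 = none → E (g.1 + 1) = E (g.1 + 2) + 1) →
        ¬ (parC A E hA).Shared (Fintype.equivFin (GT A E) g) := by
      rintro hcond ⟨z1, z2, hne, hz1, hz2⟩
      obtain ⟨z1, rfl⟩ := (Fintype.equivFin (GT A E × Bool)).surjective z1
      obtain ⟨z2, rfl⟩ := (Fintype.equivFin (GT A E × Bool)).surjective z2
      exact hne (congrArg _ (src_inj A E z1 z2 g (hinr z1 g hz1) (hinr z2 g hz2) hcond))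
    obtain ⟨⟨⟨k, hk⟩, σ, c, t⟩, q⟩ := e'
    cases t with
    | none =>
      simp only [srcG, Sum.inr.injEq] at hg
      subst hg
      exact ⟨le_rfl, fun h => absurd h (hns (by simp))⟩
    | some b =>
      cases k with
      | zero => simp [srcG] at hg
      | succ k =>
        simp only [srcG, Sum.inr.injEq] at hg
        subst hg
        change lev (k + 1) ≤ lev (k + 1 + 1) ∧ (_ → lev (k + 1) < lev (k + 1 + 1))
        rcases hE (k + 1) (by omega) hk with ⟨h1, h2⟩ | h1
        · exact ⟨h2.le, fun h => absurd h (hns fun _ => h1)⟩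
        · exact ⟨h1.le, fun _ => h1⟩

theorem card_wires (A : ℕ) (E : ℕ → ℕ) :
    Fintype.card (GT A E × Bool) = 2 * ∑ h ∈ Finset.Ioc 0 A, 3 * (2 ^ (A - h) * 2 ^ E h) := by
  rw [Fintype.card_prod, Fintype.card_bool, Fintype.card_sigma, mul_comm]
  congr 1
  have h1 : ∀ h : Fin A, Fintype.card (Fin (2 ^ (A - 1 - h.1)) × Fin (2 ^ E (h.1 + 1)) ×
      Option Bool) = 3 * (2 ^ (A - (h.1 + 1)) * 2 ^ E (h.1 + 1)) := by
    intro h
    rw [Fintype.card_prod, Fintype.card_prod, Fintype.card_fin, Fintype.card_fin,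
      Fintype.card_option, Fintype.card_bool]
    have h2 : A - 1 - h.1 = A - (h.1 + 1) := by omega
    rw [h2]
    ring
  rw [Finset.sum_congr rfl fun h _ => h1 h]
  rw [Fin.sum_univ_eq_sum_range (fun h => 3 * (2 ^ (A - (h + 1)) * 2 ^ E (h + 1))) A]
  rw [Finset.sum_bij (fun h _ => h + 1)]
  · intro h hh
    rw [Finset.mem_range] at hh
    rw [Finset.mem_Ioc]
    omega
  · intro a _ b _ h
    omega
  · intro b hb
    rw [Finset.mem_Ioc] at hb
    exact ⟨b - 1, by rw [Finset.mem_range]; omega, by omega⟩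
  · intro a _
    rfl

theorem block_sum (k : ℕ) : ∀ a A : ℕ, a + k ≤ A →
    ∑ h ∈ Finset.Ioc a (a + k), 3 * (2 ^ (A - h) * 2 ^ (a + k - h)) + 2 ^ (A - a - k) =
      2 ^ (A - a) * 2 ^ k := by
  induction k with
  | zero => intro a A _; simp
  | succ k ih =>
    intro a A h
    have h1 := ih (a + 1) A (by omega)
    have h2 : Finset.Ioc a (a + (k + 1)) = insert (a + 1) (Finset.Ioc (a + 1) (a + 1 + k)) := by
      ext x
      rw [Finset.mem_insert, Finset.mem_Ioc, Finset.mem_Ioc]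
      omega
    rw [h2, Finset.sum_insert (by simp)]
    have h3 : a + (k + 1) = a + 1 + k := by ring
    rw [h3]
    have h4 : A - a - (k + 1) = A - (a + 1) - k := by omega
    rw [h4]
    have h5 : 2 ^ (A - a) = 2 * 2 ^ (A - (a + 1)) := by
      rw [← pow_succ']
      congr 1
      omega
    have h6 : a + 1 + k - (a + 1) = k := by omega
    rw [h5, h6, pow_succ 2 k, add_assoc, h1]
    ring

/-- level of a height -/
def lv (m h : ℕ) : ℕ := Nat.log 2 ((h - 1) / m + 1)

/-- copies of a height -/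
def cp (m h : ℕ) : ℕ := m * (2 ^ (lv m h + 1) - 1) - h

theorem le_of_lv {m h : ℕ} (hm : 1 ≤ m) (hh : 1 ≤ h) : h ≤ m * (2 ^ (lv m h + 1) - 1) := by
  have h1 : (h - 1) / m + 1 < 2 ^ (lv m h + 1) := Nat.lt_pow_succ_log_self (by norm_num) _
  have h2 : (h - 1) / m < 2 ^ (lv m h + 1) - 1 := by omega
  rw [Nat.div_lt_iff_lt_mul (by omega)] at h2
  rw [mul_comm]
  omega

theorem lv_le {m h d : ℕ} (hm : 1 ≤ m) (hh : 1 ≤ h) (h2 : h ≤ m * (2 ^ (d + 1) - 1)) :
    lv m h ≤ d := by
  have h3 : (h - 1) / m < 2 ^ (d + 1) - 1 := by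
    rw [Nat.div_lt_iff_lt_mul (by omega), mul_comm]
    omega
  have h4 : (h - 1) / m + 1 < 2 ^ (d + 1) := by
    generalize (h - 1) / m = q at h3 ⊢
    omega
  have h5 := Nat.log_lt_of_lt_pow (Nat.succ_ne_zero _) h4
  unfold lv
  exact Nat.lt_succ_iff.1 h5

theorem lv_mono {m h : ℕ} : lv m h ≤ lv m (h + 1) := by
  unfold lv
  apply Nat.log_mono_right
  have : (h - 1) / m ≤ (h + 1 - 1) / m := Nat.div_le_div_right (by omega)
  omega

theorem lv_eq {m i h : ℕ} (hm : 1 ≤ m) (h1 : m * (2 ^ i - 1) < h)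
    (h2 : h ≤ m * (2 ^ (i + 1) - 1)) : lv m h = i := by
  have h3 := lv_le hm (by omega) h2
  have h4 : 2 ^ i - 1 ≤ (h - 1) / m := by
    rw [Nat.le_div_iff_mul_le (by omega), mul_comm]
    omega
  have h5 : 2 ^ i ≤ (h - 1) / m + 1 := by
    have : 0 < 2 ^ i := by positivity
    omega
  have h6 : i ≤ lv m h := Nat.le_log_of_pow_le (by norm_num) h5
  omega

theorem total (m d : ℕ) (hm : 1 ≤ m) (j : ℕ) (hj : j ≤ d + 1) :
    ∑ h ∈ Finset.Ioc 0 (m * (2 ^ j - 1)),
      3 * (2 ^ (m * (2 ^ (d + 1) - 1) - h) * 2 ^ cp m h) ≤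
    j * (2 ^ m * 2 ^ (m * (2 ^ (d + 1) - 1))) := by
  induction j with
  | zero => simp
  | succ j ih =>
    have h1 := ih (by omega)
    set A := m * (2 ^ (d + 1) - 1) with hA
    have hpj : 2 ^ j ≤ 2 ^ (j + 1) := Nat.pow_le_pow_right (by norm_num) (by omega)
    have hpd : 2 ^ (j + 1) ≤ 2 ^ (d + 1) := Nat.pow_le_pow_right (by norm_num) (by omega)
    have hp1 : 0 < 2 ^ j := by positivity
    have hps : 2 ^ (j + 1) = 2 * 2 ^ j := by rw [pow_succ]; ring
    have hH : m * (2 ^ (j + 1) - 1) = m * (2 ^ j - 1) + m * 2 ^ j := by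
      rw [← mul_add]
      congr 1
      omega
    have hHA : m * (2 ^ (j + 1) - 1) ≤ A := Nat.mul_le_mul_left _ (by omega)
    have h2 := Finset.sum_Ioc_consecutive
      (fun h => 3 * (2 ^ (A - h) * 2 ^ cp m h)) (Nat.zero_le (m * (2 ^ j - 1)))
      (show m * (2 ^ j - 1) ≤ m * (2 ^ (j + 1) - 1) by omega)
    rw [← h2]
    have h3 : ∑ h ∈ Finset.Ioc (m * (2 ^ j - 1)) (m * (2 ^ (j + 1) - 1)),
        3 * (2 ^ (A - h) * 2 ^ cp m h) =
        ∑ h ∈ Finset.Ioc (m * (2 ^ j - 1)) (m * (2 ^ j - 1) + m * 2 ^ j),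
          3 * (2 ^ (A - h) * 2 ^ (m * (2 ^ j - 1) + m * 2 ^ j - h)) := by
      rw [← hH]
      refine Finset.sum_congr rfl fun h hh => ?_
      rw [Finset.mem_Ioc] at hh
      unfold cp
      rw [lv_eq hm hh.1 hh.2]
    have h4 := block_sum (m * 2 ^ j) (m * (2 ^ j - 1)) A (by omega)
    have h5 : 2 ^ (A - m * (2 ^ j - 1)) * 2 ^ (m * 2 ^ j) = 2 ^ m * 2 ^ A := by
      rw [← pow_add, ← pow_add]
      congr 1
      have h6 : m * 2 ^ j = m * (2 ^ j - 1) + m := by
        conv_rhs => rw [← Nat.mul_succ]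
        congr 1
        omega
      omega
    rw [h5] at h4
    have h7 := Nat.le_of_add_right_le h4.le
    have h8 := Nat.add_le_add h1 (h3.trans_le h7)
    refine h8.trans (le_of_eq ?_)
    ring

/-- parity with sharing depth `d` and few wires -/
theorem parity_upper (m d : ℕ) (hm : 1 ≤ m) :
    ∃ (s w : ℕ) (C : Circuit (2 ^ (m * (2 ^ (d + 1) - 1))) s w), C.Computes parity ∧
      (∀ q, C.SharingLE ∅ q d) ∧ w ≤ 2 * (d + 1) * 2 ^ m * 2 ^ (m * (2 ^ (d + 1) - 1)) := by
  have hA : 0 < m * (2 ^ (d + 1) - 1) := by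
    have : 2 ≤ 2 ^ (d + 1) := by
      rw [pow_succ]
      have : 0 < 2 ^ d := by positivity
      omega
    exact Nat.mul_pos (by omega) (by omega)
  refine ⟨_, _, parC (m * (2 ^ (d + 1) - 1)) (cp m) hA, computes_parity _ _ hA, ?_, ?_⟩
  · refine sharing _ _ hA (lv m) d (fun h h1 h2 => lv_le hm h1 h2) ?_
    intro h h1 h2
    rcases Nat.lt_or_ge (lv m h) (lv m (h + 1)) with h3 | h3
    · exact Or.inr h3
    · left
      have h4 : lv m h = lv m (h + 1) := le_antisymm lv_mono h3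
      refine ⟨?_, h4⟩
      have h5 := le_of_lv hm (show 1 ≤ h + 1 by omega)
      unfold cp
      rw [h4]
      omega
  · rw [card_wires]
    have h1 := total m d hm (d + 1) le_rfl
    calc 2 * ∑ h ∈ Finset.Ioc 0 (m * (2 ^ (d + 1) - 1)),
          3 * (2 ^ (m * (2 ^ (d + 1) - 1) - h) * 2 ^ cp m h)
        ≤ 2 * ((d + 1) * (2 ^ m * 2 ^ (m * (2 ^ (d + 1) - 1)))) := Nat.mul_le_mul_left _ h1
      _ = 2 * (d + 1) * 2 ^ m * 2 ^ (m * (2 ^ (d + 1) - 1)) := by ring

end Pool.Agent.Lib_MP_22d2c8_shd
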